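import Pool.Agent.TH879.MS.Tail

set_option autoImplicit false
set_option linter.unusedSectionVars false

/-!
# The multiscale theorem for arbitrary actions of finite groups, with the scales built in
-/

namespace Pool.Agent.TH879.MS

open Finset
open Pool.Agent.TH965.Spread
open Pool.Agent.TH948.KK (ind ind_true ind_false ind_nonneg ind_le_one ind_mono ind_congr)

variable {G X : Type} [Group G] [Fintype G] [Fintype X] [DecidableEq X]

/-- The number of translates of `A` under the group action `φ`. -/
def orb (φ : G →* Equiv.Perm X) (A : Finset X) : ℕ :=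
  (univ.image (fun g : G => A.image (φ g))).card

/-- The `p` in `[0,1]` for which, for every `A ⊆ H` with at least `k` elements, the expected number
of translates of `A` inside a `p`-random subset of `X` is at least one. -/
def admA (φ : G →* Equiv.Perm X) (k : ℕ) (H : Finset X) : Set ℝ :=
  {p : ℝ | 0 ≤ p ∧ p ≤ 1 ∧ ∀ A : Finset X, A ⊆ H → k ≤ A.card → 1 ≤ (orb φ A : ℝ) * p ^ A.card}

/-- The expectation threshold of `H` at the scale `k` for the group action `φ`. -/
noncomputable def pA (φ : G →* Equiv.Perm X) (k : ℕ) (H : Finset X) : ℝ := sInf (admA φ k H)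

lemma one_le_orb (φ : G →* Equiv.Perm X) (A : Finset X) : 1 ≤ orb φ A := by
  unfold orb
  apply Finset.card_pos.mpr
  exact ⟨_, Finset.mem_image_of_mem _ (Finset.mem_univ 1)⟩

lemma admA_nonempty (φ : G →* Equiv.Perm X) (k : ℕ) (H : Finset X) : (admA φ k H).Nonempty := by
  refine ⟨1, zero_le_one, le_rfl, fun A _ _ => ?_⟩
  rw [one_pow, mul_one]
  exact_mod_cast one_le_orb φ A

lemma admA_closed (φ : G →* Equiv.Perm X) (k : ℕ) (H : Finset X) : IsClosed (admA φ k H) := by
  unfold admA
  apply IsClosed.and (isClosed_le continuous_const continuous_id)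
  apply IsClosed.and (isClosed_le continuous_id continuous_const)
  simp only [Set.ofPred_forall]
  refine isClosed_iInter fun A => isClosed_iInter fun _ => isClosed_iInter fun _ => ?_
  exact isClosed_le continuous_const (by fun_prop)

lemma admA_bdd (φ : G →* Equiv.Perm X) (k : ℕ) (H : Finset X) : BddBelow (admA φ k H) :=
  ⟨0, fun _ hp => hp.1⟩

/-- The minimum is attained. -/
lemma pA_least (φ : G →* Equiv.Perm X) (k : ℕ) (H : Finset X) :
    IsLeast (admA φ k H) (pA φ k H) :=
  ⟨(admA_closed φ k H).csInf_mem (admA_nonempty φ k H) (admA_bdd φ k H),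
    fun _ hp => csInf_le (admA_bdd φ k H) hp⟩

lemma pA_nonneg (φ : G →* Equiv.Perm X) (k : ℕ) (H : Finset X) : 0 ≤ pA φ k H :=
  (pA_least φ k H).1.1

lemma pA_anti (φ : G →* Equiv.Perm X) (H : Finset X) : Antitone (fun k => pA φ k H) := by
  intro k l hkl
  apply csInf_le_csInf (admA_bdd φ l H) (admA_nonempty φ k H)
  rintro p ⟨h0, h1, hp⟩
  exact ⟨h0, h1, fun A hA hl => hp A hA (hkl.trans hl)⟩

lemma admA_zero (φ : G →* Equiv.Perm X) (H : Finset X) : admA φ 0 H = admA φ 1 H := by
  ext p
  constructor
  · rintro ⟨h0, h1, hp⟩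
    exact ⟨h0, h1, fun A hA _ => hp A hA (Nat.zero_le _)⟩
  · rintro ⟨h0, h1, hp⟩
    refine ⟨h0, h1, fun A hA _ => ?_⟩
    by_cases hc : A.card = 0
    · rw [hc, pow_zero, mul_one]
      exact_mod_cast one_le_orb φ A
    · exact hp A hA (by omega)

lemma pA_pos (φ : G →* Equiv.Perm X) (H : Finset X) (hH : H.Nonempty) : 0 < pA φ 1 H := by
  obtain ⟨h0, h1, hp⟩ := (pA_least φ 1 H).1
  rcases lt_or_eq_of_le h0 with h | h
  · exact h
  · exfalso
    have h2 := hp H (Finset.Subset.refl H) (Finset.card_pos.mpr hH)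
    rw [← h, zero_pow (Finset.card_pos.mpr hH).ne', mul_zero] at h2
    norm_num at h2

/-- **The multiscale second Kahn-Kalai theorem for every action of a finite group.** The probability
that a `p`-random subset of `X` contains no translate of `H` is exponentially small in `p` once `p`
exceeds a constant times the dyadic sum of the expectation thresholds at the scales `2 ^ j`. -/
theorem pA_tail (φ : G →* Equiv.Perm X) (H : Finset X) (hH : H.Nonempty) (p : ℝ) (hp0 : 0 ≤ p)
    (hp1 : p ≤ 1) :
    exs (univ : Finset X) p (fun W => ind (¬ ∃ g : G, H.image (φ g) ⊆ W))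
      ≤ Real.exp ((80000000 * ∑ j ∈ Finset.range (Nat.log 2 H.card + 1), pA φ (2 ^ j) H - p)
          / (4000000 * pA φ 1 H)) := by
  have hcard : 1 ≤ H.card := Finset.card_pos.mpr hH
  set q : ℕ → ℝ := fun k => pA φ k H with hq
  have hq0 : ∀ t, 0 ≤ q t := fun t => pA_nonneg φ t H
  have hqa : Antitone q := pA_anti φ H
  have hq01 : q 0 = q 1 := by
    simp only [hq]
    unfold pA
    rw [admA_zero φ]
  have hq1 : 0 < q 1 := pA_pos φ H hH
  set r : ℕ → ℝ := reg q with hr
  have hrpos : ∀ t, 0 < r t := reg_pos q hq0 (by rw [hq01]; exact hq1) hq1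
  set N : ℕ := Nat.log 2 H.card + 1 with hN
  have hsum := reg_sum q hq0 hqa N (by omega)
  have hqs : q 1 ≤ ∑ κ ∈ Finset.range N, q (2 ^ κ) := by
    have := Finset.single_le_sum (f := fun κ => q (2 ^ κ)) (s := Finset.range N)
      (fun κ _ => hq0 _) (Finset.mem_range.mpr (show 0 < N by omega))
    simpa using this
  have hr0 : r 0 = q 1 := hq01
  set S : ℝ := ∑ κ ∈ Finset.range N, q (2 ^ κ) with hS
  change _ ≤ Real.exp ((80000000 * S - p) / (4000000 * q 1))
  by_cases hcase : 80000000 * S - p ≤ 0
  · have hsmall : 65536 * (48 * r 0) < 1 := by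
      rw [hr0]
      linarith
    have hmain := action_tail φ (univ : Finset X) H hH (fun g => Finset.subset_univ _)
      r hrpos (reg_anti q hq0 hqa) (fun u t _ hut => reg_dbl q u t hut)
      (by
        intro A hA
        have h1 := (pA_least φ A.card H).1.2.2 A hA le_rfl
        refine h1.trans ?_
        apply mul_le_mul_of_nonneg_left _ (by positivity)
        exact pow_le_pow_left₀ (pA_nonneg φ _ H) (le_reg q A.card) _)
      hsmall p hp0 hp1
    refine hmain.trans (Real.exp_le_exp.mpr ?_)
    rw [hr0]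
    have hlog3 : 1 ≤ Real.log 3 := by
      rw [Real.le_log_iff_exp_le (by norm_num)]
      linarith [Real.exp_one_lt_d9]
    have h2 : 6 * 65536 * 48 * ∑ κ ∈ Finset.range (Nat.log 2 H.card + 1), r (2 ^ κ) - p
        ≤ 80000000 * S - p := by
      have h3 : (0 : ℝ) ≤ S := Finset.sum_nonneg (fun κ _ => hq0 _)
      linarith
    have hden : 0 < 65536 * (48 * q 1) := by positivity
    calc Real.log 3 / (65536 * (48 * q 1))
          * (6 * 65536 * 48 * ∑ κ ∈ Finset.range (Nat.log 2 H.card + 1), r (2 ^ κ) - p)
        ≤ Real.log 3 / (65536 * (48 * q 1)) * (80000000 * S - p) :=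
          mul_le_mul_of_nonneg_left h2 (by positivity)
      _ ≤ 1 / (4000000 * q 1) * (80000000 * S - p) := by
          apply mul_le_mul_of_nonpos_right _ hcase
          rw [div_le_div_iff₀ (by positivity) hden]
          nlinarith
      _ = (80000000 * S - p) / (4000000 * q 1) := by ring
  · push Not at hcase
    have h1 : exs (univ : Finset X) p (fun W => ind (¬ ∃ g : G, H.image (φ g) ⊆ W)) ≤ 1 := by
      have h2 : exs (univ : Finset X) p (fun W => ind (¬ ∃ g : G, H.image (φ g) ⊆ W))
          ≤ exs (univ : Finset X) p (fun _ => 1) :=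
        exs_mono _ hp0 hp1 (fun W _ => ind_le_one _)
      rw [exs_const] at h2
      exact h2
    refine h1.trans ?_
    rw [← Real.exp_zero]
    apply Real.exp_le_exp.mpr
    exact div_nonneg hcase.le (by positivity)

end Pool.Agent.TH879.MS
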