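import Pool.Agent.TH879.MS.Kernel

set_option autoImplicit false
set_option linter.unusedSectionVars false

/-!
# The chain of extremal substructures and the sum over the scales
-/

namespace Pool.Agent.TH879.MS

open Finset
open Pool.Agent.TH965.Spread
open Pool.Agent.TH948.KK (ind ind_true ind_false ind_nonneg ind_le_one ind_mono ind_congr exs_sum
  exs_congr exs_indep)

/-- One level of the chain. -/
lemma chain_stepM {G : Type} {X : Type*} [Group G] [Fintype G] [Fintype X] [DecidableEq X]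
    (φ : G →* Equiv.Perm X) (s : Finset X) (A B : Finset X) (hAB : A ⊆ B) (π : ℕ → ℝ)
    (hπ : ∀ t, 0 < π t)
    (hs : ∀ g : G, B.image (φ g) ⊆ s) (Q : Finset X → Prop) (L : List (ℕ × ℕ)) (k : ℕ)
    (hk : B.card < 2 ^ k)
    (hker : ∀ (g : G) (S : Finset X), Disjoint S (A.image (φ g)) →
        ((univ.filter (fun h : G => S ∪ A.image (φ g) ⊆ B.image (φ h))).card : ℝ)
          ≤ π (A.card + S.card) ^ S.card
            * ((univ.filter (fun h : G => A.image (φ g) ⊆ B.image (φ h))).card : ℝ))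
    (hG : ∀ g : G, GoodM s π Q L (B.image (φ g))) (g : G) :
    GoodM s π Q ((k, A.card) :: L) (A.image (φ g)) := by
  classical
  set F : Finset X := A.image (φ g) with hF
  set N : ℝ := ((univ.filter (fun h : G => F ⊆ B.image (φ h))).card : ℝ) with hN
  have hNpos : 0 < N := by
    rw [hN]
    have : 0 < (univ.filter (fun h : G => F ⊆ B.image (φ h))).card := by
      apply Finset.card_pos.mpr
      exact ⟨g, Finset.mem_filter.mpr ⟨Finset.mem_univ _, Finset.image_subset_image hAB⟩⟩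
    exact_mod_cast this
  refine ⟨G, inferInstance, fun h => if F ⊆ B.image (φ h) then 1 / N else 0,
    fun h => B.image (φ h) \ F, ?_, ?_, ?_, ?_⟩
  · intro h
    dsimp only
    split_ifs
    · positivity
    · exact le_rfl
  · rw [← Finset.sum_filter, Finset.sum_const, nsmul_eq_mul, ← hN]
    field_simp
  · intro S hS
    rw [← Finset.sum_filter, Finset.filter_filter, Finset.sum_const, nsmul_eq_mul]
    dsimp only
    have hA1 := one_le_cK k
    have hpS : 0 < π (A.card + S.card) ^ S.card := pow_pos (hπ _) _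
    by_cases hdisj : Disjoint S F
    · have hle : ((univ.filter (fun h : G => S ⊆ B.image (φ h) \ F ∧ F ⊆ B.image (φ h))).card : ℝ)
          ≤ π (A.card + S.card) ^ S.card * N := by
        refine le_trans ?_ (hker g S hdisj)
        exact_mod_cast Finset.card_le_card (by
          intro h hh
          rw [Finset.mem_filter] at hh ⊢
          exact ⟨hh.1, Finset.union_subset (hh.2.1.trans Finset.sdiff_subset) hh.2.2⟩)
      calc ((univ.filter (fun h : G => S ⊆ B.image (φ h) \ F ∧ F ⊆ B.image (φ h))).card : ℝ)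
            * (1 / N)
          ≤ (π (A.card + S.card) ^ S.card * N) * (1 / N) := by
            apply mul_le_mul_of_nonneg_right hle; positivity
        _ = π (A.card + S.card) ^ S.card := by field_simp
        _ ≤ cK k * π (A.card + S.card) ^ S.card := by nlinarith
    · have hempty : univ.filter (fun h : G => S ⊆ B.image (φ h) \ F ∧ F ⊆ B.image (φ h)) = ∅ := by
        rw [Finset.eq_empty_iff_forall_notMem]
        intro h hh
        rw [Finset.mem_filter] at hh
        apply hdisj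
        rw [Finset.disjoint_left]
        intro x hx hxF
        exact (Finset.mem_sdiff.mp (hh.2.1 hx)).2 hxF
      rw [hempty, Finset.card_empty, Nat.cast_zero, zero_mul]
      positivity
  · intro h hh
    dsimp only at hh
    have hFB : F ⊆ B.image (φ h) := by
      by_contra hcon
      rw [if_neg hcon] at hh
      exact hh rfl
    refine ⟨Finset.sdiff_subset.trans (hs h), ?_, Finset.sdiff_disjoint, ?_⟩
    · calc (B.image (φ h) \ F).card ≤ (B.image (φ h)).card :=
            Finset.card_le_card Finset.sdiff_subset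
        _ ≤ B.card := Finset.card_image_le
        _ < 2 ^ k := hk
    · rw [Finset.union_sdiff_of_subset hFB]
      exact hG h

/-- The dyadic sum. -/
noncomputable def dy (π : ℕ → ℝ) (N : ℕ) : ℝ := ∑ κ ∈ Finset.range N, π (2 ^ κ)

lemma dy_sub (π : ℕ → ℝ) (hπ : Antitone π) (k' k : ℕ) (hk : k' ≤ k) :
    ((k : ℝ) - k') * π (2 ^ (k - 1)) ≤ dy π k - dy π k' := by
  unfold dy
  rw [← Finset.sum_Ico_eq_sub _ hk]
  have h1 : ∑ _κ ∈ Finset.Ico k' k, π (2 ^ (k - 1)) ≤ ∑ κ ∈ Finset.Ico k' k, π (2 ^ κ) := by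
    apply Finset.sum_le_sum
    intro κ hκ
    rw [Finset.mem_Ico] at hκ
    exact hπ (Nat.pow_le_pow_right (by norm_num) (by omega))
  rw [Finset.sum_const, Nat.card_Ico, nsmul_eq_mul, Nat.cast_sub hk] at h1
  exact h1

lemma dy_nonneg (π : ℕ → ℝ) (hπ : ∀ t, 0 < π t) (k : ℕ) : 0 ≤ dy π k :=
  Finset.sum_nonneg (fun _ _ => (hπ _).le)

/-- The phases of one level, charged to the scales. -/
lemma level_sum (π : ℕ → ℝ) (hπ : ∀ t, 0 < π t) (hanti : Antitone π) (b k' k : ℕ)
    (hk' : 1 ≤ k') (hb : 2 ^ (k' - 1) ≤ b) (hkk : k' ≤ k) :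
    ∑ e ∈ Finset.range (k - k'), π (b + 2 ^ e) + ((k : ℝ) + 1) * π (2 ^ (k - 1))
      ≤ ((k' : ℝ) + 1) * π (2 ^ (k' - 1)) + 3 * (dy π k - dy π k') := by
  have hx' := hπ (2 ^ (k' - 1))
  have hx := hπ (2 ^ (k - 1))
  have hxx : π (2 ^ (k - 1)) ≤ π (2 ^ (k' - 1)) :=
    hanti (Nat.pow_le_pow_right (by norm_num) (by omega))
  have hP := dy_sub π hanti k' k hkk
  have hterm : ∀ e, π (b + 2 ^ e) ≤ π (2 ^ (k' - 1)) := fun e =>
    hanti (hb.trans (Nat.le_add_right _ _))
  have hk'1 : (1 : ℝ) ≤ k' := by exact_mod_cast hk'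
  have hkk' : (k' : ℝ) ≤ k := by exact_mod_cast hkk
  by_cases hcase : k - k' ≤ k'
  · have h1 : ∑ e ∈ Finset.range (k - k'), π (b + 2 ^ e) ≤ ((k : ℝ) - k') * π (2 ^ (k' - 1)) := by
      calc ∑ e ∈ Finset.range (k - k'), π (b + 2 ^ e)
          ≤ ∑ _e ∈ Finset.range (k - k'), π (2 ^ (k' - 1)) :=
            Finset.sum_le_sum (fun e _ => hterm e)
        _ = ((k : ℝ) - k') * π (2 ^ (k' - 1)) := by
            rw [Finset.sum_const, Finset.card_range, nsmul_eq_mul, Nat.cast_sub hkk]
    have hc : (k : ℝ) ≤ 2 * k' := by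
      have : k ≤ 2 * k' := by omega
      exact_mod_cast this
    have h2 : (2 * (k' : ℝ) + 1 - k) * π (2 ^ (k - 1)) ≤ (2 * (k' : ℝ) + 1 - k) * π (2 ^ (k' - 1)) :=
      mul_le_mul_of_nonneg_left hxx (by linarith)
    have h3 : 0 ≤ ((k : ℝ) - k') * π (2 ^ (k - 1)) := mul_nonneg (by linarith) hx.le
    nlinarith
  · push Not at hcase
    have hsplit : ∑ e ∈ Finset.range (k - k'), π (b + 2 ^ e)
        = ∑ e ∈ Finset.range k', π (b + 2 ^ e) + ∑ e ∈ Finset.Ico k' (k - k'), π (b + 2 ^ e) :=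
      (Finset.sum_range_add_sum_Ico _ hcase.le).symm
    have h1 : ∑ e ∈ Finset.range k', π (b + 2 ^ e) ≤ (k' : ℝ) * π (2 ^ (k' - 1)) := by
      calc ∑ e ∈ Finset.range k', π (b + 2 ^ e)
          ≤ ∑ _e ∈ Finset.range k', π (2 ^ (k' - 1)) :=
            Finset.sum_le_sum (fun e _ => hterm e)
        _ = (k' : ℝ) * π (2 ^ (k' - 1)) := by
            rw [Finset.sum_const, Finset.card_range, nsmul_eq_mul]
    have h2 : ∑ e ∈ Finset.Ico k' (k - k'), π (b + 2 ^ e) ≤ dy π k - dy π k' := by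
      unfold dy
      rw [← Finset.sum_Ico_eq_sub _ hkk]
      calc ∑ e ∈ Finset.Ico k' (k - k'), π (b + 2 ^ e)
          ≤ ∑ e ∈ Finset.Ico k' (k - k'), π (2 ^ e) :=
            Finset.sum_le_sum (fun e _ => hanti (Nat.le_add_left _ _))
        _ ≤ ∑ e ∈ Finset.Ico k' k, π (2 ^ e) := by
            apply Finset.sum_le_sum_of_subset_of_nonneg
            · apply Finset.Ico_subset_Ico_right
              omega
            · intro e _ _
              exact (hπ _).le
    have hc : 2 * (k' : ℝ) + 1 ≤ k := by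
      have : 2 * k' + 1 ≤ k := by omega
      exact_mod_cast this
    have h3 : ((k : ℝ) + 1) * π (2 ^ (k - 1)) ≤ 2 * (((k : ℝ) - k') * π (2 ^ (k - 1))) := by
      have : ((k : ℝ) + 1) ≤ 2 * ((k : ℝ) - k') := by linarith
      nlinarith
    rw [hsplit]
    nlinarith

/-- The phases of the first level. -/
lemma first_sum (π : ℕ → ℝ) (hπ : ∀ t, 0 < π t) (hanti : Antitone π) (k : ℕ) (hk : 1 ≤ k) :
    ∑ e ∈ Finset.range k, π (0 + 2 ^ e) + ((k : ℝ) + 1) * π (2 ^ (k - 1)) ≤ 3 * dy π k := by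
  have hx := hπ (2 ^ (k - 1))
  have hP := dy_sub π hanti 0 k (Nat.zero_le k)
  have h0 : dy π 0 = 0 := by simp [dy]
  rw [h0, Nat.cast_zero, sub_zero, sub_zero] at hP
  have h1 : ∑ e ∈ Finset.range k, π (0 + 2 ^ e) = dy π k := by
    unfold dy
    apply Finset.sum_congr rfl
    intro e _
    rw [zero_add]
  have hk1 : (1 : ℝ) ≤ k := by exact_mod_cast hk
  rw [h1]
  nlinarith

/-- The whole chain. -/
theorem chainM {G : Type} {X : Type*} [Group G] [Fintype G] [Fintype X] [DecidableEq X]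
    (φ : G →* Equiv.Perm X) (s H : Finset X) (hs : ∀ g : G, H.image (φ g) ⊆ s)
    (q : ℕ → ℝ) (hq : ∀ t, 0 < q t) (hqa : Antitone q) (π : ℕ → ℝ) (hπq : ∀ t, π t = 48 * q t)
    (hN : ∀ A ⊆ H, 1 ≤ ((univ.image (fun g : G => A.image (φ g))).card : ℝ) * q A.card ^ A.card)
    (Q : Finset X → Prop) (N : ℕ) (hHN : H.card < 2 ^ N) :
    ∀ (n : ℕ) (B : Finset X), B ⊆ H → B.card ≤ n → B ≠ ∅ → ∀ (kB : ℕ), 1 ≤ kB →
    2 ^ (kB - 1) ≤ B.card → B.card < 2 ^ kB → ∀ L : List (ℕ × ℕ), LacM L →
    (∀ x ∈ L.head?, kB + 4 ≤ x.1 ∧ B.card ≤ x.2) → (∀ x ∈ L, x.1 ≤ N ∧ x.2 ≤ H.card) →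
    sM π kB L ≤ 65536 * (((kB : ℝ) + 1) * π (2 ^ (kB - 1)) + 3 * (dy π N - dy π kB)) →
    (∀ g : G, GoodM s π Q L (B.image (φ g))) →
    ∃ L' : List (ℕ × ℕ), LacM L' ∧ (∀ x ∈ L', x.1 ≤ N ∧ x.2 ≤ H.card) ∧ GoodM s π Q L' ∅ ∧
      sM π 0 L' ≤ 65536 * (3 * dy π N) := by
  have hπ : ∀ t, 0 < π t := fun t => by
    rw [hπq]
    have := hq t
    positivity
  have hanti : Antitone π := by
    intro a b hab
    rw [hπq, hπq]
    have := hqa hab
    linarith
  intro n
  induction n with
  | zero =>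
    intro B hB hBn hB0
    exact absurd (Finset.card_eq_zero.mp (by omega)) hB0
  | succ n ih =>
    intro B hB hBn hB0 kB hkB hkB1 hkB2 L hL hhead hLb hsum hG
    have hBne : B.Nonempty := Finset.nonempty_iff_ne_empty.mpr hB0
    obtain ⟨A, hAB, hA16, hker⟩ := exists_kernelM φ B hBne q hq hqa
      (fun A hA => hN A (hA.trans hB))
    have hBpos : 1 ≤ B.card := Finset.card_pos.mpr hBne
    have hBH : B.card ≤ H.card := Finset.card_le_card hB
    have hkBN : kB ≤ N := by
      by_contra hcon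
      push Not at hcon
      have h1 : (2 : ℕ) ^ N ≤ 2 ^ (kB - 1) := Nat.pow_le_pow_right (by norm_num) (by omega)
      omega
    have hAH : A.card ≤ H.card := (Finset.card_le_card hAB).trans hBH
    have hker' : ∀ (g : G) (S : Finset X), Disjoint S (A.image (φ g)) →
        ((univ.filter (fun h : G => S ∪ A.image (φ g) ⊆ B.image (φ h))).card : ℝ)
          ≤ π (A.card + S.card) ^ S.card
            * ((univ.filter (fun h : G => A.image (φ g) ⊆ B.image (φ h))).card : ℝ) := by
      intro g S hS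
      rw [hπq]
      exact hker g S hS
    have hstep : ∀ g : G, GoodM s π Q ((kB, A.card) :: L) (A.image (φ g)) := fun g =>
      chain_stepM φ s A B hAB π hπ (fun g => (Finset.image_subset_image hB).trans (hs g)) Q L kB
        hkB2 hker' hG g
    have hlac : LacM ((kB, A.card) :: L) := by
      refine ⟨hkB, ?_, hL⟩
      intro y hy
      have := hhead y hy
      refine ⟨this.1, ?_⟩
      change A.card ≤ y.2
      have := Finset.card_le_card hAB
      omega
    have hbd : ∀ x ∈ (kB, A.card) :: L, x.1 ≤ N ∧ x.2 ≤ H.card := by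
      intro x hx
      rw [List.mem_cons] at hx
      rcases hx with rfl | hx
      · exact ⟨hkBN, hAH⟩
      · exact hLb x hx
    by_cases hA0 : A = ∅
    · refine ⟨(kB, A.card) :: L, hlac, hbd, ?_, ?_⟩
      · have := hstep 1
        rw [hA0, Finset.image_empty] at this
        rw [hA0]
        exact this
      · have h1 := first_sum π hπ hanti kB hkB
        have h2 : sM π 0 ((kB, A.card) :: L)
            = ∑ e ∈ Finset.range kB, 65536 * π (0 + 2 ^ e) + sM π kB L := by
          rw [hA0]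
          change ∑ e ∈ Finset.range (kB - 0), 65536 * π (0 + 2 ^ e) + sM π (max 0 kB) L = _
          rw [Nat.sub_zero]
          congr 2
        rw [h2, ← Finset.mul_sum]
        linarith
    · have hApos : 1 ≤ A.card := Finset.card_pos.mpr (Finset.nonempty_iff_ne_empty.mpr hA0)
      have hk1 : 2 ^ Nat.log 2 A.card ≤ A.card := Nat.pow_log_le_self 2 (by omega)
      have hk2 : A.card < 2 ^ (Nat.log 2 A.card + 1) := Nat.lt_pow_succ_log_self (by norm_num) _
      set kA : ℕ := Nat.log 2 A.card + 1 with hkA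
      have hkA1 : 2 ^ (kA - 1) ≤ A.card := by rw [hkA, Nat.add_sub_cancel]; exact hk1
      have hkAB : kA + 4 ≤ kB := by
        by_contra hcon
        push Not at hcon
        have h1 : (2 : ℕ) ^ kB ≤ 2 ^ ((kA - 1) + 4) := Nat.pow_le_pow_right (by norm_num) (by omega)
        rw [pow_add] at h1
        omega
      refine ih A (hAB.trans hB) (by omega) hA0 kA (by omega) hkA1 hk2 ((kB, A.card) :: L) hlac ?_
        hbd ?_ hstep
      · intro x hx
        simp at hx
        subst hx
        exact ⟨hkAB, le_rfl⟩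
      · have h1 := level_sum π hπ hanti A.card kA kB (by omega) hkA1 (by omega)
        have h2 : sM π kA ((kB, A.card) :: L)
            = ∑ e ∈ Finset.range (kB - kA), 65536 * π (A.card + 2 ^ e) + sM π kB L := by
          change ∑ e ∈ Finset.range (kB - kA), 65536 * π (A.card + 2 ^ e) + sM π (max kA kB) L = _
          congr 2
          omega
        rw [h2, ← Finset.mul_sum]
        linarith

/-- **The multiscale theorem for an arbitrary group action**, for a regular sequence. -/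
theorem action_mainM {G : Type} {X : Type*} [Group G] [Fintype G] [Fintype X] [DecidableEq X]
    (φ : G →* Equiv.Perm X) (s H : Finset X) (hH : H.Nonempty) (hs : ∀ g : G, H.image (φ g) ⊆ s)
    (q : ℕ → ℝ) (hq : ∀ t, 0 < q t) (hqa : Antitone q)
    (hdbl : ∀ u t : ℕ, 1 ≤ u → u ≤ t → (u : ℝ) * q u ≤ t * q t)
    (hN : ∀ A ⊆ H, 1 ≤ ((univ.image (fun g : G => A.image (φ g))).card : ℝ) * q A.card ^ A.card)
    (hsmall : 65536 * (48 * q 0) ≤ 1)
    (d : ℝ) (hd : 9 * 65536 * 48 * ∑ κ ∈ Finset.range (Nat.log 2 H.card + 1), q (2 ^ κ) ≤ d)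
    (hd1 : d ≤ 1) :
    exs s d (fun W => ind (¬ ∃ g : G, H.image (φ g) ⊆ W)) < 1 / 2 := by
  set π : ℕ → ℝ := fun t => 48 * q t with hπdef
  have hπ : Reg π := by
    refine ⟨fun t => ?_, ?_, ?_, hsmall⟩
    · have := hq t
      simp only [hπdef]
      positivity
    · intro a b hab
      have := hqa hab
      simp only [hπdef]
      linarith
    · intro u t hu hut
      have := hdbl u t hu hut
      simp only [hπdef]
      nlinarith
  set N : ℕ := Nat.log 2 H.card + 1 with hNdef
  have hHpos : 1 ≤ H.card := Finset.card_pos.mpr hH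
  have hHN : H.card < 2 ^ N := Nat.lt_pow_succ_log_self (by norm_num) _
  have hdy : dy π N = 48 * ∑ κ ∈ Finset.range N, q (2 ^ κ) := by
    unfold dy
    rw [Finset.mul_sum]
  have hdypos : 0 < dy π N := by
    unfold dy
    apply Finset.sum_pos (fun _ _ => hπ.pos _)
    rw [Finset.nonempty_range_iff]
    omega
  set S₀ : ℝ := 65536 * (3 * dy π N) with hS₀
  have hS₀pos : 0 < S₀ := by positivity
  have hdS : 3 * S₀ ≤ d := by
    refine le_trans (le_of_eq ?_) hd
    rw [hS₀, hdy]
    ring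
  obtain ⟨L, hL, hLb, hG, hsum⟩ := chainM φ s H hs q hq hqa π (fun t => rfl) hN
    (fun W => ∃ g : G, H.image (φ g) ⊆ W) N hHN H.card H (Finset.Subset.refl H) le_rfl
    (Finset.nonempty_iff_ne_empty.mp hH) N (by omega)
    (by rw [hNdef, Nat.add_sub_cancel]; exact Nat.pow_log_le_self 2 (by omega)) hHN [] trivial
    (by simp) (by simp)
    (by
      change (0 : ℝ) ≤ _
      have := hπ.pos (2 ^ (N - 1))
      rw [sub_self]
      positivity)
    (fun g => ⟨g, Finset.Subset.refl _⟩)
  have hwmin : 0 < 65536 * π (H.card + 2 ^ N) := by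
    have := hπ.pos (H.card + 2 ^ N)
    positivity
  obtain ⟨n, hn⟩ := exists_nat_ge (3 * S₀ / (65536 * π (H.card + 2 ^ N)))
  rw [div_le_iff₀ hwmin] at hn
  have h1 := iterM s π hπ S₀ hS₀pos (by linarith) N H.card n L hL hLb hsum
    (fun W => ∃ g : G, H.image (φ g) ⊆ W)
    (fun R R' hRR' ⟨g, hg⟩ => ⟨g, hg.trans hRR'⟩) hG (3 * S₀) d hn hdS (by linarith) hd1
  refine lt_of_le_of_lt h1 ?_
  have hlog3 : 0 < Real.log 3 := Real.log_pos (by norm_num)
  have h2 : (Real.log 3 / S₀) * (2 * sM π 0 L - 3 * S₀) ≤ - Real.log 3 := by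
    have h3 : 2 * sM π 0 L - 3 * S₀ ≤ - S₀ := by linarith
    calc (Real.log 3 / S₀) * (2 * sM π 0 L - 3 * S₀) ≤ (Real.log 3 / S₀) * (- S₀) :=
          mul_le_mul_of_nonneg_left h3 (by positivity)
      _ = - Real.log 3 := by field_simp
  calc Real.exp ((Real.log 3 / S₀) * (2 * sM π 0 L - 3 * S₀)) ≤ Real.exp (- Real.log 3) :=
        Real.exp_le_exp.mpr h2
    _ = 1 / 3 := by rw [Real.exp_neg, Real.exp_log (by norm_num)]; norm_num
    _ < 1 / 2 := by norm_num

end Pool.Agent.TH879.MS
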