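import Pool.Agent.TH948.KK.Basic

set_option autoImplicit false
set_option linter.unusedSectionVars false

/-!
# Nested spread systems with a spread that depends on the scale

The definitions follow those of `TH948.KK.Defs`; the spread bound for a set of size `t` at a level with
offset `b` is `π (b + t) ^ t` for a fixed sequence `π`, and sizes are recorded by dyadic exponents.
-/

namespace Pool.Agent.TH879.MS

open Finset
open Pool.Agent.TH965.Spread
open Pool.Agent.TH948.KK (ind ind_true ind_false ind_nonneg ind_le_one ind_mono ind_congr exs_sum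
  exs_congr exs_indep)

/-- The constant in the spread condition at the dyadic size `k`. -/
noncomputable def cK (k : ℕ) : ℝ := 1 + (1 / 2 : ℝ) ^ (2 ^ k)

variable {X : Type*} [DecidableEq X]

/-- `GoodM s π Q L F`: there is a nested spread system with levels `L` over the set `F` all of whose
leaves satisfy `Q`. A level is a pair of a dyadic size `k` and an offset `b`. -/
def GoodM (s : Finset X) (π : ℕ → ℝ) (Q : Finset X → Prop) : List (ℕ × ℕ) → Finset X → Prop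
  | [], F => Q F
  | (x :: L), F => ∃ (ι : Type) (_ : Fintype ι) (ν : ι → ℝ) (T : ι → Finset X),
      (∀ i, 0 ≤ ν i) ∧ ∑ i, ν i = 1 ∧
      (∀ S : Finset X, S.Nonempty → ∑ i with S ⊆ T i, ν i ≤ cK x.1 * π (x.2 + S.card) ^ S.card) ∧
      (∀ i, ν i ≠ 0 → T i ⊆ s ∧ (T i).card < 2 ^ x.1 ∧ Disjoint (T i) F ∧
        GoodM s π Q L (F ∪ T i))

/-- Lacunary lists of positive dyadic sizes with offsets that do not decrease. -/
def LacM : List (ℕ × ℕ) → Prop
  | [] => True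
  | x :: L => 1 ≤ x.1 ∧ (∀ y ∈ L.head?, x.1 + 4 ≤ y.1 ∧ x.2 ≤ y.2) ∧ LacM L

/-- The bound for the failure probability of one phase. -/
noncomputable def dM : List (ℕ × ℕ) → ℝ
  | [] => 0
  | x :: _ => (1 / 4 : ℝ) ^ (2 ^ x.1)

/-- The density of the random set used in a phase. -/
noncomputable def wM (π : ℕ → ℝ) : List (ℕ × ℕ) → ℝ
  | [] => 0
  | x :: _ => 65536 * π (x.2 + 2 ^ (x.1 - 1))

/-- All sizes are halved. -/
def half (L : List (ℕ × ℕ)) : List (ℕ × ℕ) := L.map (fun x => (x.1 - 1, x.2))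

/-- The sum of the densities of all phases, when `c` phases have been used. -/
noncomputable def sM (π : ℕ → ℝ) : ℕ → List (ℕ × ℕ) → ℝ
  | _, [] => 0
  | c, x :: L => ∑ e ∈ Finset.range (x.1 - c), 65536 * π (x.2 + 2 ^ e) + sM π (max c x.1) L

lemma cK_le_two (a : ℕ) : cK a ≤ 2 := by
  unfold cK
  have : (1 / 2 : ℝ) ^ (2 ^ a) ≤ 1 := pow_le_one₀ (by norm_num) (by norm_num)
  linarith

lemma one_le_cK (a : ℕ) : 1 ≤ cK a := by
  unfold cK
  have : (0 : ℝ) ≤ (1 / 2 : ℝ) ^ (2 ^ a) := by positivity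
  linarith

lemma dM_nonneg (L : List (ℕ × ℕ)) : 0 ≤ dM L := by
  cases L with
  | nil => exact le_rfl
  | cons a L => unfold dM; positivity

lemma dM_le_quarter (L : List (ℕ × ℕ)) : dM L ≤ 1 / 4 := by
  cases L with
  | nil => unfold dM; norm_num
  | cons a L =>
    unfold dM
    have h1 : 1 ≤ 2 ^ a.1 := Nat.one_le_two_pow
    calc (1 / 4 : ℝ) ^ (2 ^ a.1) ≤ (1 / 4) ^ 1 := pow_le_pow_of_le_one (by norm_num) (by norm_num) h1
      _ = 1 / 4 := pow_one _

lemma dM_le_of_lac (x : ℕ × ℕ) (L : List (ℕ × ℕ)) (hL : LacM (x :: L)) :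
    dM L ≤ (1 / 4 : ℝ) ^ (16 * 2 ^ x.1) := by
  cases L with
  | nil => unfold dM; positivity
  | cons b L =>
    unfold dM
    have h1 : x.1 + 4 ≤ b.1 := (hL.2.1 b (by simp)).1
    have h2 : 16 * 2 ^ x.1 ≤ 2 ^ b.1 := by
      calc 16 * 2 ^ x.1 = 2 ^ (x.1 + 4) := by rw [pow_add]; ring
        _ ≤ 2 ^ b.1 := Nat.pow_le_pow_right (by norm_num) h1
    exact pow_le_pow_of_le_one (by norm_num) (by norm_num) h2

/-- Monotonicity in the property, only on supersets of the base set. -/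
lemma GoodM.mono' {s : Finset X} {π : ℕ → ℝ} {Q Q' : Finset X → Prop} :
    ∀ (L : List (ℕ × ℕ)) (F : Finset X),
    (∀ R, F ⊆ R → Q R → Q' R) → GoodM s π Q L F → GoodM s π Q' L F
  | [], F, h, hG => h F (Finset.Subset.refl F) hG
  | (a :: L), F, h, hG => by
    obtain ⟨ι, inst, ν, T, h0, h1, hsp, hT⟩ := hG
    refine ⟨ι, inst, ν, T, h0, h1, hsp, fun i hi => ?_⟩
    obtain ⟨a1, a2, a3, a4⟩ := hT i hi
    refine ⟨a1, a2, a3, GoodM.mono' L (F ∪ T i) (fun R hR => h R ?_) a4⟩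
    exact Finset.subset_union_left.trans hR

lemma GoodM.mono {s : Finset X} {π : ℕ → ℝ} {Q Q' : Finset X → Prop} (L : List (ℕ × ℕ))
    (F : Finset X) (h : ∀ R, Q R → Q' R) (hG : GoodM s π Q L F) : GoodM s π Q' L F :=
  GoodM.mono' L F (fun R _ => h R) hG

/-- Parts of the base set covered by `W` may be removed. -/
lemma GoodM.shrink {s : Finset X} {π : ℕ → ℝ} {Q : Finset X → Prop} {W : Finset X} :
    ∀ (L : List (ℕ × ℕ)) (F F' : Finset X), F' ⊆ F → F' ∪ W = F ∪ W →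
    GoodM s π (fun R => Q (R ∪ W)) L F → GoodM s π (fun R => Q (R ∪ W)) L F'
  | [], F, F', _, heq, hG => by
    have h1 : Q (F ∪ W) := hG
    have h2 : Q (F' ∪ W) := by rw [heq]; exact h1
    exact h2
  | (a :: L), F, F', hsub, heq, hG => by
    obtain ⟨ι, inst, ν, T, h0, h1, hsp, hT⟩ := hG
    refine ⟨ι, inst, ν, T, h0, h1, hsp, fun i hi => ?_⟩
    obtain ⟨a1, a2, a3, a4⟩ := hT i hi
    refine ⟨a1, a2, Finset.disjoint_of_subset_right hsub a3, ?_⟩
    refine GoodM.shrink L (F ∪ T i) (F' ∪ T i) (Finset.union_subset_union_left hsub) ?_ a4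
    rw [Finset.union_right_comm, heq, Finset.union_right_comm]

/-- Dependence only on the part of `W` outside a subset of the base set. -/
lemma GoodM.dep {s : Finset X} {π : ℕ → ℝ} {Q : Finset X → Prop} {W U F : Finset X}
    (L : List (ℕ × ℕ)) (hU : U ⊆ F) :
    GoodM s π (fun R => Q (R ∪ W)) L F ↔ GoodM s π (fun R => Q (R ∪ (W \ U))) L F := by
  have key : ∀ R, F ⊆ R → R ∪ W = R ∪ (W \ U) := by
    intro R hR
    ext x
    simp only [Finset.mem_union, Finset.mem_sdiff]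
    constructor
    · rintro (h | h)
      · exact Or.inl h
      · by_cases hx : x ∈ U
        · exact Or.inl (hR (hU hx))
        · exact Or.inr ⟨h, hx⟩
    · rintro (h | h)
      · exact Or.inl h
      · exact Or.inr h.1
  constructor
  · apply GoodM.mono'
    intro R hR h
    rwa [key R hR] at h
  · apply GoodM.mono'
    intro R hR h
    rwa [key R hR]

lemma GoodM.zero {s : Finset X} {π : ℕ → ℝ} {Q : Finset X → Prop} {L : List (ℕ × ℕ)} {b : ℕ}
    {F : Finset X} (h : GoodM s π Q ((0, b) :: L) F) : GoodM s π Q L F := by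
  obtain ⟨ι, inst, ν, T, h0, h1, hsp, hT⟩ := h
  have : ∃ i, ν i ≠ 0 := by
    by_contra hcon
    push Not at hcon
    have : ∑ i, ν i = 0 := Finset.sum_eq_zero (fun i _ => hcon i)
    rw [h1] at this
    norm_num at this
  obtain ⟨i, hi⟩ := this
  obtain ⟨-, a2, -, a4⟩ := hT i hi
  have hTi : T i = ∅ := by
    rw [← Finset.card_eq_zero]
    have h3 : (T i).card < 2 ^ 0 := a2
    omega
  rw [hTi, Finset.union_empty] at a4
  exact a4

lemma num1 (k : ℕ) (hk : 1 ≤ k) : cK k ≤ cK (k - 1) * (1 - (1 / 4 : ℝ) ^ (2 ^ k)) := by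
  unfold cK
  obtain ⟨j, rfl⟩ : ∃ j, k = j + 1 := ⟨k - 1, by omega⟩
  rw [Nat.add_sub_cancel]
  set y : ℝ := (1 / 2 : ℝ) ^ (2 ^ j) with hy
  have hy0 : 0 < y := by positivity
  have hy1 : y ≤ 1 / 2 := by
    have h1 : 1 ≤ 2 ^ j := Nat.one_le_two_pow
    calc y ≤ (1 / 2 : ℝ) ^ 1 := pow_le_pow_of_le_one (by norm_num) (by norm_num) h1
      _ = 1 / 2 := pow_one _
  have hx : (1 / 2 : ℝ) ^ (2 ^ (j + 1)) = y * y := by
    rw [hy, ← pow_add]; congr 1; rw [pow_succ]; ring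
  have hxx : (1 / 4 : ℝ) ^ (2 ^ (j + 1)) = (y * y) * (y * y) := by
    rw [← hx, ← mul_pow]; norm_num
  rw [hx, hxx]
  have h2 : y * y ≤ y * (1 / 2) := mul_le_mul_of_nonneg_left hy1 hy0.le
  have h3 : (y * y) * (y * y) ≤ (y * (1 / 2)) * (1 / 4) := by
    have h31 : y * y ≤ 1 / 4 := by nlinarith
    exact mul_le_mul h2 h31 (by positivity) (by positivity)
  nlinarith

lemma num2 (a : ℕ) (ha : 1 ≤ a) (A D : ℝ) (hA2 : A ≤ 2) (hA0 : 0 ≤ A) (hD0 : 0 ≤ D)
    (hD : D ≤ (1 / 4 : ℝ) ^ (16 * (2 * a))) :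
    4 ^ (2 * a) * (A * 2 ^ (2 * a) * (1 / 65536 : ℝ) ^ a
      + A * (786435 : ℝ) ^ (2 * a) * 2 ^ (2 * (2 * a) + 1) * D) ≤ (1 / 4 : ℝ) ^ (2 * a) := by
  have e1 : (1 / 65536 : ℝ) ^ a = (1 / 256 : ℝ) ^ (2 * a) := by
    rw [show (1 / 65536 : ℝ) = (1 / 256) ^ 2 by norm_num, ← pow_mul]
  have h0 : (0 : ℝ) < (1 / 4 : ℝ) ^ (2 * a) := by positivity
  have h8 : (1 / 8 : ℝ) ^ (2 * a) ≤ 1 / 64 := by
    calc (1 / 8 : ℝ) ^ (2 * a) ≤ (1 / 8) ^ 2 :=
          pow_le_pow_of_le_one (by norm_num) (by norm_num) (by omega)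
      _ = 1 / 64 := by norm_num
  have t1 : 4 ^ (2 * a) * (A * 2 ^ (2 * a) * (1 / 65536 : ℝ) ^ a) ≤ (1 / 2) * (1 / 4 : ℝ) ^ (2 * a) := by
    rw [e1]
    calc 4 ^ (2 * a) * (A * 2 ^ (2 * a) * (1 / 256 : ℝ) ^ (2 * a))
        ≤ 4 ^ (2 * a) * (2 * 2 ^ (2 * a) * (1 / 256 : ℝ) ^ (2 * a)) := by gcongr
      _ = 2 * ((1 / 8 : ℝ) ^ (2 * a) * (1 / 4 : ℝ) ^ (2 * a)) := by
          rw [← mul_pow]
          have : (4 : ℝ) ^ (2 * a) * (2 * 2 ^ (2 * a) * (1 / 256 : ℝ) ^ (2 * a))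
            = 2 * (4 * 2 * (1 / 256) : ℝ) ^ (2 * a) := by
            rw [mul_pow, mul_pow]; ring
          rw [this]
          norm_num
      _ ≤ 2 * (1 / 64 * (1 / 4 : ℝ) ^ (2 * a)) := by
          have := mul_le_mul_of_nonneg_right h8 h0.le
          linarith
      _ ≤ (1 / 2) * (1 / 4 : ℝ) ^ (2 * a) := by linarith
  have t2 : 4 ^ (2 * a) * (A * (786435 : ℝ) ^ (2 * a) * 2 ^ (2 * (2 * a) + 1) * D)
      ≤ (1 / 2) * (1 / 4 : ℝ) ^ (2 * a) := by
    calc 4 ^ (2 * a) * (A * (786435 : ℝ) ^ (2 * a) * 2 ^ (2 * (2 * a) + 1) * D)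
        ≤ 4 ^ (2 * a) * (2 * (786435 : ℝ) ^ (2 * a) * 2 ^ (2 * (2 * a) + 1)
            * (1 / 4 : ℝ) ^ (16 * (2 * a))) := by gcongr
      _ = 4 * (4 * 786435 * 4 * (1 / 4) ^ 16 : ℝ) ^ (2 * a) := by
          rw [mul_pow, mul_pow, mul_pow, ← pow_mul, pow_succ, pow_mul 2 2 (2 * a)]; norm_num; ring
      _ ≤ 4 * ((1 / 8) * (1 / 4) : ℝ) ^ (2 * a) := by
          have : (4 * 786435 * 4 * (1 / 4) ^ 16 : ℝ) ^ (2 * a) ≤ ((1 / 8) * (1 / 4) : ℝ) ^ (2 * a) :=
            pow_le_pow_left₀ (by norm_num) (by norm_num) (2 * a)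
          linarith
      _ = 4 * ((1 / 8 : ℝ) ^ (2 * a) * (1 / 4 : ℝ) ^ (2 * a)) := by rw [mul_pow]
      _ ≤ 4 * (1 / 64 * (1 / 4 : ℝ) ^ (2 * a)) := by
          have := mul_le_mul_of_nonneg_right h8 h0.le
          linarith
      _ ≤ (1 / 2) * (1 / 4 : ℝ) ^ (2 * a) := by linarith
  rw [mul_add]
  linarith

lemma LacM.tail {a : ℕ × ℕ} {L : List (ℕ × ℕ)} (h : LacM (a :: L)) : LacM L := h.2.2

/-- Halving keeps the lacunarity, up to a possible first zero. -/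
lemma LacM.half : ∀ {L : List (ℕ × ℕ)}, LacM L → (∀ a ∈ L.head?, 2 ≤ a.1) → LacM (half L)
  | [], _, _ => trivial
  | [a], h, h2 => by
    have : 2 ≤ a.1 := h2 a (by simp)
    refine ⟨?_, by simp, trivial⟩
    change 1 ≤ a.1 - 1
    omega
  | (a :: b :: L), h, h2 => by
    have ha : 2 ≤ a.1 := h2 a (by simp)
    have hb := h.2.1 b (by simp)
    have ih := LacM.half (L := b :: L) h.2.2 (by
      intro c hc
      simp at hc
      subst hc
      omega)
    refine ⟨?_, ?_, ih⟩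
    · change 1 ≤ a.1 - 1
      omega
    · intro c hc
      simp at hc
      subst hc
      change a.1 - 1 + 4 ≤ b.1 - 1 ∧ a.2 ≤ b.2
      omega

end Pool.Agent.TH879.MS
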