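import Mathlib

set_option autoImplicit false

/-!
# Regularisation of a nonincreasing sequence

From a nonincreasing nonnegative sequence `q` one gets a nonincreasing sequence `r ≥ q` for which
`t * r t` is nondecreasing, and whose dyadic sums are at most four times those of `q`.
-/

namespace Pool.Agent.TH879.MS

open Finset

/-- The regularised sequence. -/
noncomputable def reg (q : ℕ → ℝ) : ℕ → ℝ
  | 0 => q 0
  | (t + 1) => max (q (t + 1)) ((t : ℝ) / (t + 1) * reg q t)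

lemma le_reg (q : ℕ → ℝ) (t : ℕ) : q t ≤ reg q t := by
  cases t with
  | zero => exact le_rfl
  | succ t => exact le_max_left _ _

lemma reg_nonneg (q : ℕ → ℝ) (h0 : ∀ t, 0 ≤ q t) (t : ℕ) : 0 ≤ reg q t :=
  (h0 t).trans (le_reg q t)

lemma reg_one (q : ℕ → ℝ) (h0 : ∀ t, 0 ≤ q t) : reg q 1 = q 1 := by
  change max (q (0 + 1)) (((0 : ℕ) : ℝ) / (((0 : ℕ) : ℝ) + 1) * reg q 0) = q 1
  rw [Nat.cast_zero, zero_div, zero_mul, zero_add]
  exact max_eq_left (h0 1)

lemma reg_anti (q : ℕ → ℝ) (h0 : ∀ t, 0 ≤ q t) (hq : Antitone q) : Antitone (reg q) := by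
  apply antitone_nat_of_succ_le
  intro t
  have h1 := reg_nonneg q h0 t
  apply max_le
  · exact (hq (Nat.le_succ t)).trans (le_reg q t)
  · have h2 : (t : ℝ) / (t + 1) ≤ 1 := by
      rw [div_le_one (by positivity)]
      linarith
    nlinarith

lemma reg_step (q : ℕ → ℝ) (t : ℕ) : (t : ℝ) * reg q t ≤ ((t + 1 : ℕ) : ℝ) * reg q (t + 1) := by
  have h1 : (t : ℝ) / (t + 1) * reg q t ≤ reg q (t + 1) := le_max_right _ _
  have h2 : (0 : ℝ) < t + 1 := by positivity
  push_cast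
  calc (t : ℝ) * reg q t = (t + 1) * ((t : ℝ) / (t + 1) * reg q t) := by field_simp
    _ ≤ (t + 1) * reg q (t + 1) := mul_le_mul_of_nonneg_left h1 h2.le

lemma reg_dbl (q : ℕ → ℝ) (u t : ℕ) (hut : u ≤ t) : (u : ℝ) * reg q u ≤ t * reg q t := by
  have : Monotone (fun t : ℕ => (t : ℝ) * reg q t) := monotone_nat_of_le_succ (reg_step q)
  exact this hut

lemma reg_pos (q : ℕ → ℝ) (h0 : ∀ t, 0 ≤ q t) (hq0 : 0 < q 0) (hq1 : 0 < q 1) (t : ℕ) :
    0 < reg q t := by
  cases t with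
  | zero => exact hq0
  | succ t =>
    have h1 := reg_dbl q 1 (t + 1) (by omega)
    rw [reg_one q h0, Nat.cast_one, one_mul] at h1
    have h2 : (0 : ℝ) < ((t + 1 : ℕ) : ℝ) := by positivity
    by_contra hcon
    push Not at hcon
    have := mul_nonpos_of_nonneg_of_nonpos h2.le hcon
    linarith

lemma reg_mul_le (q : ℕ → ℝ) (h0 : ∀ t, 0 ≤ q t) (hq : Antitone q) (s : ℕ) :
    ∀ t, s ≤ t → (t : ℝ) * reg q t ≤ s * reg q s + t * q s := by
  intro t ht
  induction t, ht using Nat.le_induction with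
  | base =>
    have h1 := h0 s
    have h2 : (0 : ℝ) ≤ s * q s := by positivity
    linarith
  | succ t ht ih =>
    have h1 := reg_nonneg q h0 s
    have h2 : (0 : ℝ) < t + 1 := by positivity
    have h3 := h0 s
    change ((t + 1 : ℕ) : ℝ) * max (q (t + 1)) ((t : ℝ) / (t + 1) * reg q t) ≤ _
    push_cast
    rw [mul_max_of_nonneg _ _ h2.le]
    apply max_le
    · have h4 : q (t + 1) ≤ q s := hq (by omega)
      have h5 : (0 : ℝ) ≤ s * reg q s := by positivity
      nlinarith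
    · have h6 : ((t : ℝ) + 1) * ((t : ℝ) / (t + 1) * reg q t) = t * reg q t := by field_simp
      rw [h6]
      nlinarith

lemma reg_half (q : ℕ → ℝ) (h0 : ∀ t, 0 ≤ q t) (hq : Antitone q) (k : ℕ) :
    reg q (2 ^ (k + 1)) ≤ reg q (2 ^ k) / 2 + q (2 ^ k) := by
  have h1 := reg_mul_le q h0 hq (2 ^ k) (2 ^ (k + 1))
    (Nat.pow_le_pow_right (by norm_num) (by omega))
  push_cast at h1
  have h2 : (0 : ℝ) < 2 ^ (k + 1) := by positivity
  have h3 : (2 : ℝ) ^ (k + 1) = 2 ^ k * 2 := pow_succ _ _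
  have h4 : (2 : ℝ) ^ (k + 1) * reg q (2 ^ (k + 1))
      ≤ 2 ^ (k + 1) * (reg q (2 ^ k) / 2 + q (2 ^ k)) := by
    calc (2 : ℝ) ^ (k + 1) * reg q (2 ^ (k + 1)) ≤ 2 ^ k * reg q (2 ^ k) + 2 ^ (k + 1) * q (2 ^ k) := h1
      _ = 2 ^ (k + 1) * (reg q (2 ^ k) / 2 + q (2 ^ k)) := by rw [h3]; ring
  exact le_of_mul_le_mul_left h4 h2

/-- The dyadic sums grow by a factor of at most four. -/
lemma reg_sum (q : ℕ → ℝ) (h0 : ∀ t, 0 ≤ q t) (hq : Antitone q) (N : ℕ) (hN : 1 ≤ N) :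
    ∑ κ ∈ Finset.range N, reg q (2 ^ κ) ≤ 4 * ∑ κ ∈ Finset.range N, q (2 ^ κ) := by
  have hind : ∀ N : ℕ, ∑ κ ∈ Finset.range N, reg q (2 ^ κ) + 2 * reg q (2 ^ N)
      ≤ 2 * q 1 + 2 * ∑ κ ∈ Finset.range N, q (2 ^ κ) := by
    intro N
    induction N with
    | zero =>
      simp only [Finset.range_zero, Finset.sum_empty, pow_zero, zero_add, mul_zero, add_zero]
      rw [reg_one q h0]
    | succ N ih =>
      rw [Finset.sum_range_succ, Finset.sum_range_succ]
      have := reg_half q h0 hq N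
      linarith
  have h1 := hind N
  have h2 := reg_nonneg q h0 (2 ^ N)
  have h3 : q 1 ≤ ∑ κ ∈ Finset.range N, q (2 ^ κ) := by
    have := Finset.single_le_sum (f := fun κ => q (2 ^ κ)) (s := Finset.range N)
      (fun κ _ => h0 _) (Finset.mem_range.mpr (show 0 < N by omega))
    simpa using this
  linarith

end Pool.Agent.TH879.MS
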