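import Pool.Agent.TH879.MS.Chain
import Pool.Agent.TH879.MS.Regular
import Pool.Agent.TH879.MS.Orbit
import Pool.Agent.TH948.KK.Final

set_option autoImplicit false
set_option linter.unusedSectionVars false

/-!
# The multiscale form of the second Kahn-Kalai conjecture
-/

namespace Pool.Agent.TH879.MS

open Finset
open scoped Classical
open Pool.Agent.TH965 Pool.Agent.TH965.Emb Pool.Agent.TH965.Copy Pool.Agent.TH965.Spread
open Pool.Agent.TH948.KK (ind ind_true ind_false ind_nonneg ind_le_one ind_mono ind_congr exs_sum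
  exs_congr exs_indep pairHom image_pairHom)

/-- The densities `p` in `[0,1]` for which the expected number
`(n)_{v(H')} / |Aut(H')| * p ^ e(H')` of copies in `G(n,p)` of every subgraph `H'` of `H` with at
least `k` edges is at least one. -/
def admK (n : ℕ) {m : ℕ} (k : ℕ) (H : SimpleGraph (Fin m)) : Set ℝ :=
  {p : ℝ | 0 ≤ p ∧ p ≤ 1 ∧ ∀ H' : H.Subgraph, k ≤ H'.edgeSet.ncard →
    1 ≤ (n.descFactorial H'.verts.ncard : ℝ) / (Nat.card (H'.coe ≃g H'.coe) : ℝ)
      * p ^ H'.edgeSet.ncard}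

/-- The expectation threshold at the scale `k`: the least `p` in `[0,1]` for which every subgraph
of `H` with at least `k` edges has an expected number of copies in `G(n,p)` of at least one. -/
noncomputable def pEk (n : ℕ) {m : ℕ} (k : ℕ) (H : SimpleGraph (Fin m)) : ℝ := sInf (admK n k H)

lemma adm_nonempty {n m : ℕ} (hmn : m ≤ n) (k : ℕ) (H : SimpleGraph (Fin m)) :
    (admK n k H).Nonempty := by
  obtain ⟨p, h0, h1, hp⟩ := pE_set_nonempty hmn H
  exact ⟨p, h0, h1, fun H' _ => hp H'⟩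

lemma adm_closed (n : ℕ) {m : ℕ} (k : ℕ) (H : SimpleGraph (Fin m)) : IsClosed (admK n k H) := by
  unfold admK
  apply IsClosed.and (isClosed_le continuous_const continuous_id)
  apply IsClosed.and (isClosed_le continuous_id continuous_const)
  simp only [Set.ofPred_forall]
  refine isClosed_iInter fun H' => isClosed_iInter fun _ => ?_
  exact isClosed_le continuous_const (by fun_prop)

lemma adm_bdd (n : ℕ) {m : ℕ} (k : ℕ) (H : SimpleGraph (Fin m)) : BddBelow (admK n k H) :=
  ⟨0, fun _ hp => hp.1⟩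

/-- The minimum defining the expectation threshold at the scale `k` is attained. -/
lemma pEk_least {n m : ℕ} (hmn : m ≤ n) (k : ℕ) (H : SimpleGraph (Fin m)) :
    IsLeast (admK n k H) (pEk n k H) :=
  ⟨(adm_closed n k H).csInf_mem (adm_nonempty hmn k H) (adm_bdd n k H),
    fun _ hp => csInf_le (adm_bdd n k H) hp⟩

lemma pEk_nonneg {n m : ℕ} (hmn : m ≤ n) (k : ℕ) (H : SimpleGraph (Fin m)) : 0 ≤ pEk n k H :=
  (pEk_least hmn k H).1.1

lemma pEk_anti {n m : ℕ} (hmn : m ≤ n) (H : SimpleGraph (Fin m)) :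
    Antitone (fun k => pEk n k H) := by
  intro k l hkl
  apply csInf_le_csInf (adm_bdd n l H) (adm_nonempty hmn k H)
  rintro p ⟨h0, h1, hp⟩
  exact ⟨h0, h1, fun H' hH' => hp H' (hkl.trans hH')⟩

lemma one_le_copies {n m : ℕ} (hmn : m ≤ n) (H : SimpleGraph (Fin m)) (H' : H.Subgraph) :
    1 ≤ (n.descFactorial H'.verts.ncard : ℝ) / (Nat.card (H'.coe ≃g H'.coe) : ℝ) := by
  obtain ⟨p, h0, h1, hp⟩ := pE_set_nonempty hmn H
  have h2 := hp H'
  have h3 : p ^ H'.edgeSet.ncard ≤ 1 := pow_le_one₀ h0 h1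
  have h4 : (0 : ℝ) ≤ (n.descFactorial H'.verts.ncard : ℝ) / (Nat.card (H'.coe ≃g H'.coe) : ℝ) := by
    positivity
  nlinarith

lemma adm_zero {n m : ℕ} (hmn : m ≤ n) (H : SimpleGraph (Fin m)) : admK n 0 H = admK n 1 H := by
  ext p
  constructor
  · rintro ⟨h0, h1, hp⟩
    exact ⟨h0, h1, fun H' _ => hp H' (Nat.zero_le _)⟩
  · rintro ⟨h0, h1, hp⟩
    refine ⟨h0, h1, fun H' _ => ?_⟩
    by_cases he : H'.edgeSet.ncard = 0
    · rw [he, pow_zero, mul_one]
      exact one_le_copies hmn H H'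
    · exact hp H' (by omega)

/-- At the scale `1` this is the expectation threshold. -/
lemma pEk_one {n m : ℕ} (hmn : m ≤ n) (H : SimpleGraph (Fin m)) : pEk n 1 H = pE n H := by
  unfold pEk pE
  rw [← adm_zero hmn]
  congr 1
  ext p
  constructor
  · rintro ⟨h0, h1, hp⟩
    exact ⟨h0, h1, fun H' => hp H' (Nat.zero_le _)⟩
  · rintro ⟨h0, h1, hp⟩
    exact ⟨h0, h1, fun H' _ => hp H'⟩

lemma pE_pos {n m : ℕ} (hmn : m ≤ n) (H : SimpleGraph (Fin m)) (hH : H ≠ ⊥) : 0 < pE n H := by
  have h1 : pEk n 0 H = pE n H := by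
    rw [← pEk_one hmn]
    unfold pEk
    rw [adm_zero hmn]
  have h2 := (pEk_least hmn 0 H).1
  rw [h1] at h2
  exact pE_set_pos H hH (pE n H) h2.1 (fun H' => h2.2.2 H' (Nat.zero_le _))

/-- **The multiscale form of the second Kahn-Kalai conjecture.** -/
theorem threshold_le_sum {n m : ℕ} (hmn : m ≤ n) (H : SimpleGraph (Fin m)) (hH : H ≠ ⊥)
    (pc : ℝ) (hpc1 : pc ≤ 1) (hpc : gnp n pc (fun G => H.IsContained G) ≤ 1 / 2) :
    pc ≤ 120000000 * ∑ κ ∈ Finset.range (Nat.log 2 H.edgeSet.ncard + 1), pEk n (2 ^ κ) H := by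
  by_contra hcon
  push Not at hcon
  set e : ℕ := H.edgeSet.ncard with he
  have hedge : 1 ≤ e := by
    rw [he, Nat.one_le_iff_ne_zero, Ne, Set.ncard_eq_zero]
    intro he
    exact hH (SimpleGraph.edgeSet_eq_empty.mp he)
  set q : ℕ → ℝ := fun k => pEk n k H with hq
  have hq0 : ∀ t, 0 ≤ q t := fun t => pEk_nonneg hmn t H
  have hqa : Antitone q := pEk_anti hmn H
  have hq01 : q 0 = q 1 := by
    simp only [hq]
    unfold pEk
    rw [adm_zero hmn]
  have hq1 : 0 < q 1 := by
    simp only [hq]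
    rw [pEk_one hmn]
    exact pE_pos hmn H hH
  set r : ℕ → ℝ := reg q with hr
  have hrpos : ∀ t, 0 < r t := reg_pos q hq0 (by rw [hq01]; exact hq1) hq1
  set N : ℕ := Nat.log 2 e + 1 with hN
  have hsum := reg_sum q hq0 hqa N (by omega)
  have hqs : q 1 ≤ ∑ κ ∈ Finset.range N, q (2 ^ κ) := by
    have := Finset.single_le_sum (f := fun κ => q (2 ^ κ)) (s := Finset.range N)
      (fun κ _ => hq0 _) (Finset.mem_range.mpr (show 0 < N by omega))
    simpa using this
  set d : ℝ := 9 * 65536 * 48 * ∑ κ ∈ Finset.range N, r (2 ^ κ) with hd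
  have hdpc : d ≤ pc := by
    have h1 : (0 : ℝ) ≤ ∑ κ ∈ Finset.range N, q (2 ^ κ) := Finset.sum_nonneg (fun κ _ => hq0 _)
    rw [hd]
    linarith
  have hd0 : 0 ≤ d := by
    rw [hd]
    have : (0 : ℝ) ≤ ∑ κ ∈ Finset.range N, r (2 ^ κ) := Finset.sum_nonneg (fun κ _ => (hrpos _).le)
    positivity
  have hd1 : d ≤ 1 := hdpc.trans hpc1
  have hsmall : 65536 * (48 * r 0) ≤ 1 := by
    have h1 : r 0 = q 1 := hq01
    rw [h1]
    linarith
  have hmono : gnp n d (fun G => H.IsContained G) ≤ 1 / 2 := by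
    refine (gnp_mono n hd0 hdpc hpc1 _ ?_).trans hpc
    intro G G' hGG' hH
    exact hH.trans_le hGG'
  set B : Finset (Sym2 (Fin n)) := (eF H).image (Sym2.map (Fin.castLE hmn)) with hB
  have hBcard : B.card = e := by
    rw [hB, Finset.card_image_of_injective _ (Sym2.map.injective (Fin.castLE_injective hmn)),
      eF_card]
  have hmain := action_mainM (pairHom n) (eF (⊤ : SimpleGraph (Fin n))) B
    (Finset.card_pos.mp (by omega))
    (by
      intro σ x hx
      rw [image_pairHom] at hx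
      have := cop_notDiag hmn H σ x hx
      rw [mem_eF, SimpleGraph.edgeSet_top]
      exact this)
    r hrpos (reg_anti q hq0 hqa) (fun u t _ hut => reg_dbl q u t hut)
    (by
      intro A hA
      have := orbit_countM hmn H (r A.card) (hrpos _).le A
        (by
          intro H' hH'
          have h1 := (pEk_least hmn A.card H).1.2.2 H' hH'.ge
          refine h1.trans ?_
          apply mul_le_mul_of_nonneg_left _ (by positivity)
          exact pow_le_pow_left₀ (pEk_nonneg hmn _ H) (le_reg q A.card) _) hA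
      refine this.trans (le_of_eq ?_)
      congr 3)
    hsmall d (by rw [hBcard]) hd1
  rw [gnp_eq_exs] at hmono
  have hlow : 1 - exs (eF (⊤ : SimpleGraph (Fin n))) d
        (fun W => ind (¬ ∃ σ : Equiv.Perm (Fin n), B.image (pairHom n σ) ⊆ W))
      ≤ exs (eF (⊤ : SimpleGraph (Fin n))) d
      (fun W => if H.IsContained (SimpleGraph.fromEdgeSet (W : Set (Sym2 (Fin n))))
        then (1 : ℝ) else 0) := by
    have h1 : (1 : ℝ) = exs (eF (⊤ : SimpleGraph (Fin n))) d (fun _ => 1) := by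
      rw [exs_const]
    rw [sub_le_iff_le_add]
    conv_lhs => rw [h1]
    rw [← exs_add]
    apply exs_mono _ hd0 hd1
    intro W _
    by_cases hex : ∃ σ : Equiv.Perm (Fin n), B.image (pairHom n σ) ⊆ W
    · obtain ⟨σ, hσ⟩ := hex
      rw [image_pairHom] at hσ
      rw [if_pos (isContained_of_cop hmn H σ W hσ)]
      have := ind_nonneg (¬ ∃ σ : Equiv.Perm (Fin n), B.image (pairHom n σ) ⊆ W)
      linarith
    · rw [ind_true hex]
      split_ifs <;> norm_num
  linarith

end Pool.Agent.TH879.MS
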