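import Pool.Agent.TH879.MS.Phase

set_option autoImplicit false
set_option linter.unusedSectionVars false

/-!
# Iterating the phases

The densities of the phases differ; an exponential potential controls the failures.
-/

namespace Pool.Agent.TH879.MS

open Finset
open Pool.Agent.TH965.Spread
open Pool.Agent.TH948.KK (ind ind_true ind_false ind_nonneg ind_le_one ind_mono ind_congr exs_sum
  exs_congr exs_indep)

variable {X : Type*} [DecidableEq X]

lemma sM_nonneg {π : ℕ → ℝ} (hπ : Reg π) : ∀ (L : List (ℕ × ℕ)) (c : ℕ), 0 ≤ sM π c L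
  | [], _ => le_rfl
  | x :: L, c => by
    unfold sM
    have h1 := sM_nonneg hπ L (max c x.1)
    have h2 : 0 ≤ ∑ e ∈ Finset.range (x.1 - c), 65536 * π (x.2 + 2 ^ e) := by
      apply Finset.sum_nonneg
      intro e _
      have := hπ.pos (x.2 + 2 ^ e)
      positivity
    linarith

lemma sM_half (π : ℕ → ℝ) : ∀ (L : List (ℕ × ℕ)) (c : ℕ), sM π (c + 1) L = sM π c (half L)
  | [], _ => rfl
  | x :: L, c => by
    have h1 := sM_half π L (max c (x.1 - 1))
    have h2 : half (x :: L) = (x.1 - 1, x.2) :: half L := rfl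
    rw [h2]
    unfold sM
    dsimp only
    rw [← h1]
    have e1 : x.1 - (c + 1) = x.1 - 1 - c := by omega
    have e2 : x.1 - 1 - c = x.1 - 1 - c := rfl
    rw [e1]
    congr 1
    by_cases hx : x.1 = 0
    · rw [hx]
      have : max (c + 1) 0 = max c (0 - 1) + 1 := by simp
      rw [this]
    · have : max (c + 1) x.1 = max c (x.1 - 1) + 1 := by omega
      rw [this]

lemma sM_zero (π : ℕ → ℝ) (b c : ℕ) (M : List (ℕ × ℕ)) : sM π c ((0, b) :: M) = sM π c M := by
  change ∑ e ∈ Finset.range (0 - c), 65536 * π (b + 2 ^ e) + sM π (max c 0) M = _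
  simp

lemma sM_step (π : ℕ → ℝ) (L : List (ℕ × ℕ)) (hL : LacM L) :
    sM π 0 L = wM π L + sM π 0 (half L) := by
  cases L with
  | nil =>
    change (0 : ℝ) = 0 + 0
    simp
  | cons x M =>
    have hx : 1 ≤ x.1 := hL.1
    obtain ⟨k, b⟩ := x
    obtain ⟨j, rfl⟩ : ∃ j, k = j + 1 := ⟨k - 1, by
      change 1 ≤ k at hx
      omega⟩
    have h2 : half ((j + 1, b) :: M) = (j, b) :: half M := rfl
    rw [h2]
    unfold sM wM
    dsimp only
    rw [Nat.sub_zero, Nat.sub_zero, Nat.add_sub_cancel, Finset.sum_range_succ]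
    have e1 : max 0 (j + 1) = j + 1 := by omega
    have e2 : max 0 j = j := by omega
    rw [e1, e2, sM_half]
    ring

/-- Dropping a leading zero after halving. -/
lemma drop_zeroM {s : Finset X} {π : ℕ → ℝ} {Q : Finset X → Prop} {F : Finset X}
    (L : List (ℕ × ℕ)) (n₁ n₂ : ℕ)
    (hL : LacM L) (hb : ∀ x ∈ L, x.1 ≤ n₁ ∧ x.2 ≤ n₂) (hG : GoodM s π Q (half L) F) :
    ∃ L', LacM L' ∧ (∀ x ∈ L', x.1 ≤ n₁ ∧ x.2 ≤ n₂) ∧ GoodM s π Q L' F ∧
      sM π 0 L' = sM π 0 (half L) := by
  have hb' : ∀ x ∈ half L, x.1 ≤ n₁ ∧ x.2 ≤ n₂ := by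
    intro x hx
    unfold half at hx
    rw [List.mem_map] at hx
    obtain ⟨y, hy, rfl⟩ := hx
    have := hb y hy
    dsimp only
    omega
  cases L with
  | nil => exact ⟨[], trivial, by simp, hG, rfl⟩
  | cons a M =>
    by_cases ha : 2 ≤ a.1
    · exact ⟨half (a :: M), LacM.half hL (by intro b hb; simp at hb; subst hb; exact ha), hb',
        hG, rfl⟩
    · have ha1 : a.1 = 1 := by
        have := hL.1
        omega
      obtain ⟨k, b⟩ := a
      change k = 1 at ha1
      subst ha1
      have h2 : half ((1, b) :: M) = (0, b) :: half M := rfl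
      refine ⟨half M, LacM.half hL.tail ?_, ?_, ?_, ?_⟩
      · intro y hy
        have := hL.2.1 y hy
        omega
      · intro x hx
        apply hb'
        rw [h2]
        exact List.mem_cons_of_mem _ hx
      · exact GoodM.zero hG
      · rw [h2, sM_zero]

/-- **Iteration of the phases.** -/
theorem iterM (s : Finset X) (π : ℕ → ℝ) (hπ : Reg π) (S₀ : ℝ) (hS₀ : 0 < S₀) (hS₁ : 3 * S₀ ≤ 1)
    (n₁ n₂ : ℕ) :
    ∀ (n : ℕ) (L : List (ℕ × ℕ)), LacM L → (∀ x ∈ L, x.1 ≤ n₁ ∧ x.2 ≤ n₂) → sM π 0 L ≤ S₀ →
    ∀ (Q : Finset X → Prop), (∀ R R', R ⊆ R' → Q R → Q R') → GoodM s π Q L ∅ →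
    ∀ B d : ℝ, B ≤ n * (65536 * π (n₂ + 2 ^ n₁)) → B ≤ d → 0 ≤ d → d ≤ 1 →
    exs s d (fun W => ind (¬ Q W)) ≤ Real.exp ((Real.log 3 / S₀) * (2 * sM π 0 L - B)) := by
  have hlog3 : 0 < Real.log 3 := Real.log_pos (by norm_num)
  set lam : ℝ := Real.log 3 / S₀ with hlam
  have hlam0 : 0 < lam := by positivity
  have hwmin : 0 < 65536 * π (n₂ + 2 ^ n₁) := by
    have := hπ.pos (n₂ + 2 ^ n₁)
    positivity
  intro n
  induction n with
  | zero =>
    intro L hL hb hS Q hQ hG B d hBn hBd hd0 hd1
    have h1 : exs s d (fun W => ind (¬ Q W)) ≤ exs s d (fun _ => 1) := by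
      apply exs_mono s hd0 hd1
      intro W _
      exact ind_le_one _
    rw [exs_const] at h1
    refine h1.trans ?_
    rw [← Real.exp_zero]
    apply Real.exp_le_exp.mpr
    have h2 := sM_nonneg hπ L 0
    rw [Nat.cast_zero, zero_mul] at hBn
    apply mul_nonneg hlam0.le
    linarith
  | succ n ih =>
    intro L hL hb hS Q hQ hG B d hBn hBd hd0 hd1
    cases hLc : L with
    | nil =>
      have hQ0 : Q ∅ := by rw [hLc] at hG; exact hG
      have h1 : exs s d (fun W => ind (¬ Q W)) ≤ exs s d (fun _ => 0) := by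
        apply exs_mono s hd0 hd1
        intro W _
        rw [ind_false]
        rw [not_not]
        exact hQ ∅ W (Finset.empty_subset _) hQ0
      rw [exs_const] at h1
      exact h1.trans (Real.exp_pos _).le
    | cons x M =>
      rw [← hLc]
      set w : ℝ := wM π L with hw
      have hstep := sM_step π L hL
      have hhalf0 := sM_nonneg hπ (half L) 0
      have hwS : w ≤ sM π 0 L := by rw [hstep]; linarith
      have hwle : w ≤ S₀ := hwS.trans hS
      have hw1 : w < 1 := by linarith
      have hwmin' : 65536 * π (n₂ + 2 ^ n₁) ≤ w := by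
        rw [hw, hLc]
        unfold wM
        have h2 := hb x (by rw [hLc]; simp)
        have h3 : (2 : ℕ) ^ (x.1 - 1) ≤ 2 ^ n₁ := Nat.pow_le_pow_right (by norm_num) (by omega)
        have := hπ.anti (show x.2 + 2 ^ (x.1 - 1) ≤ n₂ + 2 ^ n₁ by omega)
        linarith
      have hw0 : 0 < w := lt_of_lt_of_le hwmin hwmin'
      by_cases hBw : B < w
      · have h1 : exs s d (fun W => ind (¬ Q W)) ≤ exs s d (fun _ => 1) := by
          apply exs_mono s hd0 hd1
          intro W _
          exact ind_le_one _
        rw [exs_const] at h1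
        refine h1.trans ?_
        rw [← Real.exp_zero]
        apply Real.exp_le_exp.mpr
        apply mul_nonneg hlam0.le
        linarith
      · push Not at hBw
        have h1w : 0 < 1 - w := by linarith
        set d' : ℝ := (d - w) / (1 - w) with hd'
        have hdw : 0 ≤ d - w := by linarith
        have hd'0 : 0 ≤ d' := div_nonneg hdw h1w.le
        have hd'1 : d' ≤ 1 := by rw [hd', div_le_one h1w]; linarith
        have hd'2 : d - w ≤ d' := by
          rw [hd', le_div_iff₀ h1w]
          nlinarith
        have hd : d = w + d' - w * d' := by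
          rw [hd']; field_simp; ring
        have hunion : exs s d (fun W => ind (¬ Q W))
            = exs s w (fun W₁ => exs s d' (fun W₂ => ind (¬ Q (W₁ ∪ W₂)))) := by
          conv_lhs => rw [hd]
          exact exs_union s w d' (fun W => ind (¬ Q W))
        rw [hunion]
        set E : ℝ := Real.exp (lam * (2 * sM π 0 L - B)) with hE
        set xx : ℝ := Real.exp (lam * w) with hxx
        have hE0 : 0 < E := Real.exp_pos _
        have hx0 : 0 < xx := Real.exp_pos _
        have hx1 : 1 ≤ xx := by
          rw [hxx, ← Real.exp_zero]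
          exact Real.exp_le_exp.mpr (by positivity)
        have hx3 : xx ≤ 3 := by
          have h5 : lam * w ≤ Real.log 3 := by
            rw [hlam, div_mul_eq_mul_div, div_le_iff₀ hS₀]
            exact mul_le_mul_of_nonneg_left hwle hlog3.le
          calc xx ≤ Real.exp (Real.log 3) := Real.exp_le_exp.mpr h5
            _ = 3 := Real.exp_log (by norm_num)
        have hBn' : B - w ≤ n * (65536 * π (n₂ + 2 ^ n₁)) := by
          push_cast at hBn
          linarith
        have hinner : ∀ W₁ : Finset X, W₁ ⊆ s →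
            exs s d' (fun W₂ => ind (¬ Q (W₁ ∪ W₂)))
            ≤ E / xx + (E * xx - E / xx) * ind (¬ GoodM s π (fun R => Q (R ∪ W₁)) (half L) ∅) := by
          intro W₁ _
          have hQ' : ∀ R R' : Finset X, R ⊆ R' → Q (R ∪ W₁) → Q (R' ∪ W₁) :=
            fun R R' h => hQ _ _ (Finset.union_subset_union_left h)
          have hcomm : exs s d' (fun W₂ => ind (¬ Q (W₁ ∪ W₂)))
              = exs s d' (fun W₂ => ind (¬ Q (W₂ ∪ W₁))) := by
            apply exs_congr
            intro W _
            rw [Finset.union_comm]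
          rw [hcomm]
          by_cases hgood : GoodM s π (fun R => Q (R ∪ W₁)) (half L) ∅
          · rw [ind_false (not_not.mpr hgood), mul_zero, add_zero]
            obtain ⟨L', hL', hb', hG', hs'⟩ := drop_zeroM L n₁ n₂ hL hb hgood
            have h6 := ih L' hL' hb' (by rw [hs']; linarith) (fun R => Q (R ∪ W₁)) hQ' hG'
              (B - w) d' hBn' (by linarith) hd'0 hd'1
            refine h6.trans (le_of_eq ?_)
            rw [hs', hE, hxx, ← Real.exp_sub]
            congr 1
            rw [hstep]
            ring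
          · rw [ind_true hgood, mul_one]
            have h6 := ih L hL hb hS (fun R => Q (R ∪ W₁)) hQ'
              (GoodM.mono L ∅ (fun R => hQ _ _ Finset.subset_union_left) hG)
              (B - w) d' hBn' (by linarith) hd'0 hd'1
            refine h6.trans (le_of_eq ?_)
            have e1 : E / xx + (E * xx - E / xx) = E * xx := by ring
            rw [e1, hE, hxx, ← Real.exp_add]
            congr 1
            ring
        have hEE : 0 ≤ E * xx - E / xx := by
          have h7 : E / xx ≤ E := div_le_self hE0.le hx1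
          nlinarith
        calc exs s w (fun W₁ => exs s d' (fun W₂ => ind (¬ Q (W₁ ∪ W₂))))
            ≤ exs s w (fun W₁ => E / xx + (E * xx - E / xx) *
                ind (¬ GoodM s π (fun R => Q (R ∪ W₁)) (half L) ∅)) :=
              exs_mono s hw0.le hw1.le hinner
          _ = E / xx + (E * xx - E / xx) * exs s w (fun W₁ =>
                ind (¬ GoodM s π (fun R => Q (R ∪ W₁)) (half L) ∅)) := by
              rw [exs_add, exs_const, exs_mul_left]
          _ ≤ E / xx + (E * xx - E / xx) * (1 / 4) := by
              have h1 := (phaseM s π hπ L hL Q hQ ∅ hG).trans (dM_le_quarter L)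
              have h2 := mul_le_mul_of_nonneg_left h1 hEE
              linarith
          _ ≤ E := by
              have h8 : E / xx + (E * xx - E / xx) * (1 / 4) = E * ((3 + xx * xx) / (4 * xx)) := by
                field_simp; ring
              rw [h8]
              have h9 : (3 + xx * xx) / (4 * xx) ≤ 1 := by
                rw [div_le_one (by positivity)]
                nlinarith
              nlinarith

end Pool.Agent.TH879.MS
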