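import Pool.Agent.TH879.MS.Tools
import Pool.Agent.TH879.MS.Prune

set_option autoImplicit false
set_option linter.unusedSectionVars false

/-!
# One phase: all levels are processed simultaneously, with a spread that depends on the scale

The structure of the argument is that of `TH948.KK.Phase`. The deeper levels only use a thinner random
subset of the random set of the phase.
-/

namespace Pool.Agent.TH879.MS

open Finset
open Pool.Agent.TH965.Spread
open Pool.Agent.TH948.KK (ind ind_true ind_false ind_nonneg ind_le_one ind_mono ind_congr exs_sum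
  exs_congr exs_indep)

variable {X : Type*} [DecidableEq X]

/-- Regular spread sequences. -/
structure Reg (π : ℕ → ℝ) : Prop where
  pos : ∀ t, 0 < π t
  anti : Antitone π
  dbl : ∀ u t : ℕ, 1 ≤ u → u ≤ t → (u : ℝ) * π u ≤ t * π t
  small : 65536 * π 0 ≤ 1

lemma Reg.dbl' {π : ℕ → ℝ} (hπ : Reg π) (b r t : ℕ) (hr : 1 ≤ r) (hrt : r ≤ t) :
    (r : ℝ) * π (b + r) ≤ t * π (b + t) := by
  have h1 := hπ.dbl (b + r) (b + t) (by omega) (by omega)
  push_cast at h1
  have hb : (0 : ℝ) ≤ b := Nat.cast_nonneg b
  have hr' : (1 : ℝ) ≤ r := by exact_mod_cast hr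
  have hrt' : (r : ℝ) ≤ t := by exact_mod_cast hrt
  have hp := hπ.pos (b + t)
  have h2 : (r : ℝ) * (b + t) ≤ t * (b + r) := by nlinarith
  have h3 : (0 : ℝ) < b + r := by linarith
  have h4 : ((r : ℝ) * π (b + r)) * (b + r) ≤ (t * π (b + t)) * (b + r) := by
    calc ((r : ℝ) * π (b + r)) * (b + r) = r * ((b + r) * π (b + r)) := by ring
      _ ≤ r * ((b + t) * π (b + t)) := mul_le_mul_of_nonneg_left h1 (by linarith)
      _ = (r * (b + t)) * π (b + t) := by ring
      _ ≤ (t * (b + r)) * π (b + t) := mul_le_mul_of_nonneg_right h2 hp.le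
      _ = (t * π (b + t)) * (b + r) := by ring
  exact le_of_mul_le_mul_right h4 h3

/-- The spread of small sets at a level, in terms of the spread of sets of size `t`. -/
lemma Reg.pow_le {π : ℕ → ℝ} (hπ : Reg π) (b r t : ℕ) (hrt : r ≤ t) :
    π (b + r) ^ r ≤ 3 ^ t * π (b + t) ^ r := by
  have hpt := hπ.pos (b + t)
  by_cases hr : r = 0
  · subst hr
    simp only [pow_zero, mul_one]
    exact one_le_pow₀ (by norm_num)
  · have hr1 : 1 ≤ r := by omega
    have hr' : (0 : ℝ) < r := by exact_mod_cast hr1
    have h1 := hπ.dbl' b r t hr1 hrt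
    have h2 : π (b + r) ≤ ((t : ℝ) / r) * π (b + t) := by
      rw [div_mul_eq_mul_div, le_div_iff₀ hr']
      linarith
    have h3 : (t : ℝ) / r ≤ Real.exp ((t : ℝ) / r) := by
      have := Real.add_one_le_exp ((t : ℝ) / r)
      linarith
    have h4 : ((t : ℝ) / r) ^ r ≤ 3 ^ t := by
      calc ((t : ℝ) / r) ^ r ≤ (Real.exp ((t : ℝ) / r)) ^ r :=
            pow_le_pow_left₀ (by positivity) h3 r
        _ = Real.exp (t : ℝ) := by
            rw [← Real.exp_nat_mul]
            congr 1
            field_simp
        _ = Real.exp 1 ^ t := by rw [← Real.exp_nat_mul]; simp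
        _ ≤ 3 ^ t := pow_le_pow_left₀ (Real.exp_pos 1).le (by linarith [Real.exp_one_lt_d9]) t
    calc π (b + r) ^ r ≤ (((t : ℝ) / r) * π (b + t)) ^ r :=
          pow_le_pow_left₀ (hπ.pos _).le h2 r
      _ = ((t : ℝ) / r) ^ r * π (b + t) ^ r := mul_pow _ _ _
      _ ≤ 3 ^ t * π (b + t) ^ r := mul_le_mul_of_nonneg_right h4 (by positivity)

/-- The density of a phase in terms of the spread of sets of size `t`. -/
lemma Reg.dens_le {π : ℕ → ℝ} (hπ : Reg π) (b u t : ℕ) (hu : 1 ≤ u) (ht : t ≤ 2 * u) :
    π (b + u) ≤ 2 * π (b + t) := by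
  have hpt := hπ.pos (b + t)
  by_cases h : t ≤ u
  · have := hπ.anti (show b + t ≤ b + u by omega)
    linarith
  · have h1 := hπ.dbl' b u t hu (by omega)
    have h2 : (t : ℝ) ≤ 2 * u := by exact_mod_cast ht
    have hu' : (0 : ℝ) < u := by exact_mod_cast hu
    have h3 : π (b + u) * u ≤ (2 * π (b + t)) * u := by nlinarith
    exact le_of_mul_le_mul_right h3 hu'

/-- The deterministic part of a phase: if few indices are bad, the halved system exists. -/
lemma phase_detM {ι : Type} [Fintype ι] (s : Finset X) (π : ℕ → ℝ) (hπ : ∀ t, 0 < π t)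
    (Q : Finset X → Prop) (F W : Finset X) (k b : ℕ) (hk : 1 ≤ k) (M : List (ℕ × ℕ))
    (ν : ι → ℝ) (T : ι → Finset X) (h0 : ∀ i, 0 ≤ ν i) (h1 : ∑ i, ν i = 1)
    (hsp : ∀ S : Finset X, S.Nonempty →
      ∑ i with S ⊆ T i, ν i ≤ cK k * π (b + S.card) ^ S.card)
    (hT : ∀ i, ν i ≠ 0 → T i ⊆ s ∧ Disjoint (T i) F)
    (v : ι → ι) (hv : ∀ i, ν i ≠ 0 → T (v i) ⊆ W ∪ T i)
    (bad : ι → Prop) [DecidablePred bad]
    (hbad : ∀ i, ν i ≠ 0 → ¬ bad i → (T (v i) \ W).card < 2 ^ (k - 1) ∧
      GoodM s π (fun R => Q (R ∪ W)) M (F ∪ T (v i)))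
    (hsmall : ∑ i with bad i, ν i ≤ (1 / 4 : ℝ) ^ (2 ^ k)) :
    GoodM s π (fun R => Q (R ∪ W)) ((k - 1, b) :: M) F := by
  classical
  set m : ℝ := ∑ i with ¬ bad i, ν i with hm
  have hsum : ∑ i with bad i, ν i + m = 1 := by
    rw [hm, Finset.sum_filter_add_sum_filter_not, h1]
  have hq : (1 / 4 : ℝ) ^ (2 ^ k) ≤ 1 / 4 := by
    calc (1 / 4 : ℝ) ^ (2 ^ k) ≤ (1 / 4) ^ 1 :=
          pow_le_pow_of_le_one (by norm_num) (by norm_num) Nat.one_le_two_pow
      _ = 1 / 4 := pow_one _
  have hm1 : 1 - (1 / 4 : ℝ) ^ (2 ^ k) ≤ m := by linarith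
  have hmpos : 0 < m := by linarith
  refine ⟨ι, inferInstance, fun i => if bad i then 0 else ν i / m, fun i => T (v i) \ W,
    ?_, ?_, ?_, ?_⟩
  · intro i
    dsimp only
    split_ifs
    · exact le_rfl
    · exact div_nonneg (h0 i) hmpos.le
  · have : ∑ i, (if bad i then (0 : ℝ) else ν i / m) = (∑ i with ¬ bad i, ν i) / m := by
      rw [Finset.sum_div, Finset.sum_filter]
      apply Finset.sum_congr rfl
      intro i _
      by_cases hb : bad i
      · rw [if_pos hb, if_neg (not_not.mpr hb)]
      · rw [if_neg hb, if_pos hb]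
    rw [this, ← hm, div_self hmpos.ne']
  · intro S hS
    have hstep : ∑ i with S ⊆ T (v i) \ W, (if bad i then (0 : ℝ) else ν i / m)
        ≤ (∑ i with S ⊆ T i, ν i) / m := by
      rw [Finset.sum_div, Finset.sum_filter, Finset.sum_filter]
      apply Finset.sum_le_sum
      intro i _
      by_cases hb : bad i
      · rw [if_pos hb]
        have h2 : 0 ≤ ν i / m := div_nonneg (h0 i) hmpos.le
        split_ifs <;> first | exact le_rfl | exact h2
      · rw [if_neg hb]
        by_cases hν : ν i = 0
        · rw [hν]; simp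
        · by_cases hS' : S ⊆ T (v i) \ W
          · have hS2 : S ⊆ T i := by
              intro x hx
              have hx' := hS' hx
              rw [Finset.mem_sdiff] at hx'
              have := hv i hν hx'.1
              rw [Finset.mem_union] at this
              exact this.resolve_left hx'.2
            rw [if_pos hS', if_pos hS2]
          · rw [if_neg hS']
            have h2 : 0 ≤ ν i / m := div_nonneg (h0 i) hmpos.le
            split_ifs <;> first | exact le_rfl | exact h2
    refine hstep.trans ?_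
    rw [div_le_iff₀ hmpos]
    have h3 := num1 k hk
    have hA0 : 0 ≤ cK (k - 1) := by have := one_le_cK (k - 1); linarith
    have hpS : 0 ≤ π (b + S.card) ^ S.card := pow_nonneg (hπ _).le _
    calc ∑ i with S ⊆ T i, ν i ≤ cK k * π (b + S.card) ^ S.card := hsp S hS
      _ ≤ (cK (k - 1) * (1 - (1 / 4 : ℝ) ^ (2 ^ k))) * π (b + S.card) ^ S.card :=
          mul_le_mul_of_nonneg_right h3 hpS
      _ ≤ (cK (k - 1) * m) * π (b + S.card) ^ S.card :=
          mul_le_mul_of_nonneg_right (mul_le_mul_of_nonneg_left hm1 hA0) hpS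
      _ = cK (k - 1) * π (b + S.card) ^ S.card * m := by ring
  · intro i hi
    dsimp only at hi
    have hb : ¬ bad i := by
      intro hb
      rw [if_pos hb] at hi
      exact hi rfl
    rw [if_neg hb] at hi
    have hν : ν i ≠ 0 := by
      intro h
      rw [h, zero_div] at hi
      exact hi rfl
    have hsub : T (v i) \ W ⊆ T i := by
      intro x hx'
      rw [Finset.mem_sdiff] at hx'
      have := hv i hν hx'.1
      rw [Finset.mem_union] at this
      exact this.resolve_left hx'.2
    obtain ⟨b1, b2⟩ := hbad i hν hb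
    refine ⟨hsub.trans (hT i hν).1, b1, Finset.disjoint_of_subset_left hsub (hT i hν).2, ?_⟩
    refine GoodM.shrink M (F ∪ T (v i)) _ ?_ ?_ b2
    · exact Finset.union_subset_union_right Finset.sdiff_subset
    · ext x
      simp only [Finset.mem_union, Finset.mem_sdiff]
      tauto

lemma wM_le {π : ℕ → ℝ} (hπ : Reg π) (x : ℕ × ℕ) (M : List (ℕ × ℕ)) (hL : LacM (x :: M)) :
    wM π M ≤ wM π (x :: M) := by
  cases M with
  | nil =>
    unfold wM
    have := hπ.pos (x.2 + 2 ^ (x.1 - 1))
    linarith
  | cons y M =>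
    unfold wM
    have h1 := hL.2.1 y (by simp)
    have h2 : (2 : ℕ) ^ (x.1 - 1) ≤ 2 ^ (y.1 - 1) := Nat.pow_le_pow_right (by norm_num) (by omega)
    have := hπ.anti (show x.2 + 2 ^ (x.1 - 1) ≤ y.2 + 2 ^ (y.1 - 1) by omega)
    linarith

lemma wM_nonneg {π : ℕ → ℝ} (hπ : Reg π) (L : List (ℕ × ℕ)) : 0 ≤ wM π L := by
  cases L with
  | nil => exact le_rfl
  | cons x M =>
    unfold wM
    have := hπ.pos (x.2 + 2 ^ (x.1 - 1))
    linarith

lemma wM_le_one {π : ℕ → ℝ} (hπ : Reg π) (L : List (ℕ × ℕ)) : wM π L ≤ 1 := by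
  cases L with
  | nil => exact zero_le_one
  | cons x M =>
    unfold wM
    have h1 := hπ.anti (Nat.zero_le (x.2 + 2 ^ (x.1 - 1)))
    have h2 := hπ.small
    linarith

/-- **One phase.** -/
theorem phaseM (s : Finset X) (π : ℕ → ℝ) (hπ : Reg π) :
    ∀ (L : List (ℕ × ℕ)), LacM L → ∀ (Q : Finset X → Prop), (∀ R R', R ⊆ R' → Q R → Q R') →
    ∀ F : Finset X, GoodM s π Q L F →
    exs s (wM π L) (fun W => ind (¬ GoodM s π (fun R => Q (R ∪ W)) (half L) F)) ≤ dM L := by
  classical
  intro L
  induction L with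
  | nil =>
    intro _ Q hQ F hG
    have h0 : exs s (wM π [])
        (fun W => ind (¬ GoodM s π (fun R => Q (R ∪ W)) (half []) F))
        ≤ exs s (wM π []) (fun _ => 0) := by
      apply exs_mono s (wM_nonneg hπ []) (wM_le_one hπ [])
      intro W _
      rw [ind_false]
      rw [not_not]
      exact hQ F (F ∪ W) Finset.subset_union_left hG
    rw [exs_const] at h0
    exact h0
  | cons x M ih =>
    intro hL Q hQ F hG
    obtain ⟨k, b⟩ := x
    have hk : 1 ≤ k := hL.1
    obtain ⟨j, rfl⟩ : ∃ j, k = j + 1 := ⟨k - 1, by omega⟩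
    set a : ℕ := 2 ^ j with ha
    have ha1 : 1 ≤ a := Nat.one_le_two_pow
    have h2a : 2 ^ (j + 1) = 2 * a := by rw [ha, pow_succ]; ring
    set p₀ : ℝ := π (b + a) with hp₀
    have hw1 : wM π ((j + 1, b) :: M) = 65536 * p₀ := rfl
    have hp₀pos : 0 < p₀ := hπ.pos _
    have hw0 : 0 ≤ 65536 * p₀ := by positivity
    have hKp : 65536 * p₀ ≤ 1 := by rw [← hw1]; exact wM_le_one hπ _
    set h : ℕ → ℝ := fun t => π (b + t) ^ t with hh
    have hhpos : ∀ t, 0 < h t := fun t => pow_pos (hπ.pos _) t
    have hh0 : h 0 = 1 := by simp [hh]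
    have hπ1 : ∀ t, π t ≤ 1 := by
      intro t
      have h1 := hπ.anti (Nat.zero_le t)
      have h2 := hπ.small
      have h3 := hπ.pos 0
      linarith
    have hhanti : Antitone h := by
      intro r t hrt
      calc π (b + t) ^ t ≤ π (b + t) ^ r := pow_le_pow_of_le_one (hπ.pos _).le (hπ1 _) hrt
        _ ≤ π (b + r) ^ r := pow_le_pow_left₀ (hπ.pos _).le (hπ.anti (by omega)) r
    have hA1 := one_le_cK (j + 1)
    have hA2 := cK_le_two (j + 1)
    have hA0 : 0 ≤ cK (j + 1) := by linarith
    obtain ⟨ι, inst, ν₀, T, n0, n1, nsp, nT⟩ := hG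
    obtain ⟨ν, h0, h1, hsp, hsupp, hent⟩ := pruneM ν₀ T (2 * a) (cK (j + 1)) h hA1 hhpos hh0 hhanti
      n0 n1 nsp (fun i hi => by
        have := (nT i hi).2.1
        change (T i).card < 2 ^ (j + 1) at this
        omega)
    have hT : ∀ i, ν i ≠ 0 → T i ⊆ s ∧ (T i).card < 2 ^ (j + 1) ∧ Disjoint (T i) F ∧
        GoodM s π Q M (F ∪ T i) := fun i hi => nT i (hsupp i hi)
    set G : Finset ι := Finset.univ.filter (fun i => ν i ≠ 0) with hGdef
    have hGmem : ∀ i, i ∈ G ↔ ν i ≠ 0 := by
      intro i; rw [hGdef, Finset.mem_filter]; simp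
    obtain ⟨fr, hfr⟩ := exists_frag G T
    set E : ι → Finset X → Prop :=
      fun i W => GoodM s π (fun R => Q (R ∪ W)) (half M) (F ∪ T i) with hE
    have hhalf : half ((j + 1, b) :: M) = (j + 1 - 1, b) :: half M := rfl
    -- deterministic bound
    have hdet : ∀ W : Finset X, W ⊆ s →
        ind (¬ GoodM s π (fun R => Q (R ∪ W)) (half ((j + 1, b) :: M)) F)
        ≤ 4 ^ (2 * a) * (∑ i ∈ G with a ≤ (T (fr W i) \ W).card, ν i
          + ∑ u ∈ G, cK (j + 1) * (h (T u \ W).card * ind (¬ E u W))) := by
      intro W _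
      have hsecond0 : 0 ≤ ∑ u ∈ G, cK (j + 1) * (h (T u \ W).card * ind (¬ E u W)) := by
        apply Finset.sum_nonneg
        intro u _
        have h3 := ind_nonneg (¬ E u W)
        have := (hhpos (T u \ W).card).le
        positivity
      have hfirst0 : 0 ≤ ∑ i ∈ G with a ≤ (T (fr W i) \ W).card, ν i :=
        Finset.sum_nonneg (fun i _ => h0 i)
      by_cases hgood : GoodM s π (fun R => Q (R ∪ W)) (half ((j + 1, b) :: M)) F
      · rw [ind_false (not_not.mpr hgood)]
        positivity
      · rw [ind_true hgood]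
        by_contra hcon
        push Not at hcon
        apply hgood
        set bad : ι → Prop := fun i =>
          i ∈ G ∧ (a ≤ (T (fr W i) \ W).card ∨ ¬ E (fr W i) W) with hbaddef
        have hsecond : ∑ i ∈ G with ¬ E (fr W i) W, ν i
            ≤ ∑ u ∈ G, cK (j + 1) * (h (T u \ W).card * ind (¬ E u W)) := by
          have hmaps : ∀ i ∈ G.filter (fun i => ¬ E (fr W i) W), fr W i ∈ G := by
            intro i hi
            exact (hfr W i (Finset.mem_filter.mp hi).1).1
          rw [← Finset.sum_fiberwise_of_maps_to hmaps]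
          apply Finset.sum_le_sum
          intro u _
          by_cases hEu : E u W
          · rw [ind_false (not_not.mpr hEu)]
            have : ∑ i ∈ (G.filter (fun i => ¬ E (fr W i) W)).filter (fun i => fr W i = u), ν i
                = 0 := by
              apply Finset.sum_eq_zero
              intro i hi
              rw [Finset.mem_filter, Finset.mem_filter] at hi
              exfalso
              apply hi.1.2
              rw [hi.2]
              exact hEu
            rw [this]; simp
          · rw [ind_true hEu, mul_one]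
            calc ∑ i ∈ (G.filter (fun i => ¬ E (fr W i) W)).filter (fun i => fr W i = u), ν i
                ≤ ∑ i ∈ G with fr W i = u, ν i := by
                  apply Finset.sum_le_sum_of_subset_of_nonneg
                  · intro i hi
                    rw [Finset.mem_filter, Finset.mem_filter] at hi
                    rw [Finset.mem_filter]
                    exact ⟨hi.1.1, hi.2⟩
                  · intro i _ _
                    exact h0 i
              _ ≤ cK (j + 1) * h (T u \ W).card :=
                  choose_leM h hh0 (cK (j + 1)) hA1 W ν T h0 h1 hsp G (fr W)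
                    (fun i hi => (hfr W i hi).2.1) u
        have hbadsum : ∑ i with bad i, ν i ≤ (1 / 4 : ℝ) ^ (2 * a) := by
          have hle : ∑ i with bad i, ν i
              ≤ ∑ i ∈ G with a ≤ (T (fr W i) \ W).card, ν i
                + ∑ i ∈ G with ¬ E (fr W i) W, ν i := by
            calc ∑ i with bad i, ν i
                ≤ ∑ i ∈ (G.filter (fun i => a ≤ (T (fr W i) \ W).card)) ∪
                    (G.filter (fun i => ¬ E (fr W i) W)), ν i := by
                  apply Finset.sum_le_sum_of_subset_of_nonneg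
                  · intro i hi
                    rw [Finset.mem_filter] at hi
                    obtain ⟨-, hiG, hi2⟩ := hi
                    rcases hi2 with h | h
                    · exact Finset.mem_union.mpr (Or.inl (Finset.mem_filter.mpr ⟨hiG, h⟩))
                    · exact Finset.mem_union.mpr (Or.inr (Finset.mem_filter.mpr ⟨hiG, h⟩))
                  · intro i _ _
                    exact h0 i
              _ ≤ _ := by
                  rw [← Finset.sum_union_inter]
                  have : 0 ≤ ∑ i ∈ (G.filter (fun i => a ≤ (T (fr W i) \ W).card)) ∩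
                    (G.filter (fun i => ¬ E (fr W i) W)), ν i :=
                    Finset.sum_nonneg (fun i _ => h0 i)
                  linarith
          have h4 : (0 : ℝ) < 4 ^ (2 * a) := by positivity
          have h5 : (4 : ℝ) ^ (2 * a) * (1 / 4 : ℝ) ^ (2 * a) = 1 := by
            rw [← mul_pow]; norm_num
          nlinarith
        rw [hhalf]
        exact phase_detM s π hπ.pos Q F W (j + 1) b hk (half M) ν T h0 h1 hsp
          (fun i hi => ⟨(hT i hi).1, (hT i hi).2.2.1⟩) (fr W)
          (fun i hi => (hfr W i ((hGmem i).mpr hi)).2.1) bad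
          (by
            intro i hi hb
            have hiG : i ∈ G := (hGmem i).mpr hi
            have h6 : ¬ (a ≤ (T (fr W i) \ W).card ∨ ¬ E (fr W i) W) :=
              fun h => hb ⟨hiG, h⟩
            push Not at h6
            refine ⟨?_, h6.2⟩
            rw [Nat.add_sub_cancel]
            exact h6.1) (by rw [h2a]; exact hbadsum)
    -- expectations
    have hexp1 : exs s (65536 * p₀)
        (fun W => ∑ i ∈ G with a ≤ (T (fr W i) \ W).card, ν i)
        ≤ cK (j + 1) * 2 ^ (2 * a) * (1 / 65536 : ℝ) ^ a := by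
      apply fragM s G ν T fr hfr (fun i hi => (hT i ((hGmem i).mp hi)).1) (2 * a) a
        (fun i hi => by have := (hT i ((hGmem i).mp hi)).2.1; omega) ha1 (cK (j + 1)) 65536 p₀
        hA0 (by norm_num) hp₀pos hKp h0
      intro S hS
      have hSne : S.Nonempty := Finset.card_pos.mp (by omega)
      have hs1 : ∑ i ∈ G with S ⊆ T i, ν i ≤ cK (j + 1) * h S.card := by
        refine le_trans ?_ (hsp S hSne)
        apply Finset.sum_le_sum_of_subset_of_nonneg
        · intro i hi
          rw [Finset.mem_filter] at hi ⊢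
          exact ⟨Finset.mem_univ _, hi.2⟩
        · intro i _ _
          exact h0 i
      refine hs1.trans (mul_le_mul_of_nonneg_left ?_ hA0)
      exact pow_le_pow_left₀ (hπ.pos _).le (hπ.anti (by omega)) _
    have hexp2 : exs s (65536 * p₀)
        (fun W => ∑ u ∈ G, cK (j + 1) * (h (T u \ W).card * ind (¬ E u W)))
        ≤ cK (j + 1) * (786435 : ℝ) ^ (2 * a) * 2 ^ (2 * (2 * a) + 1) * dM M := by
      rw [exs_sum]
      have hD0 := dM_nonneg M
      have hterm : ∀ u ∈ G, exs s (65536 * p₀)
          (fun W => cK (j + 1) * (h (T u \ W).card * ind (¬ E u W)))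
          ≤ cK (j + 1) * (786435 : ℝ) ^ (2 * a) * dM M * h (T u).card := by
        intro u hu
        have hu' := (hGmem u).mp hu
        obtain ⟨u1, u2, u3, u4⟩ := hT u hu'
        set t : ℕ := (T u).card with ht
        have ht2 : t ≤ 2 * a := by omega
        set p : ℝ := π (b + t) with hp
        have hppos : 0 < p := hπ.pos _
        have hEmono : ∀ W W', W ⊆ W' → E u W → E u W' := by
          intro W W' hWW hEW
          exact GoodM.mono _ _ (fun R => hQ _ _ (Finset.union_subset_union_right hWW)) hEW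
        have hEdep : ∀ W, E u W ↔ E u (W \ T u) := by
          intro W
          exact GoodM.dep (half M) Finset.subset_union_right
        have h7 : exs s (wM π M) (fun W => ind (¬ E u W)) ≤ dM M :=
          ih hL.tail Q hQ (F ∪ T u) u4
        have h70 : 0 ≤ exs s (wM π M) (fun W => ind (¬ E u W)) := by
          have h71 : exs s (wM π M) (fun _ => 0) ≤ exs s (wM π M) (fun W => ind (¬ E u W)) :=
            exs_mono s (wM_nonneg hπ M) (wM_le_one hπ M) (fun W _ => ind_nonneg _)
          rw [exs_const] at h71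
          exact h71
        have hw21 : wM π M ≤ 65536 * p₀ := by rw [← hw1]; exact wM_le hπ _ M hL
        have h8 : (65536 * p₀ + (1 - 65536 * p₀) * p) ^ t ≤ (262145 * p) ^ t := by
          apply pow_le_pow_left₀
          · have : 0 ≤ (1 - 65536 * p₀) * p := mul_nonneg (by linarith) hppos.le
            linarith
          · have h81 : p₀ ≤ 2 * p := hπ.dens_le b a t ha1 ht2
            nlinarith
        calc exs s (65536 * p₀) (fun W => cK (j + 1) * (h (T u \ W).card * ind (¬ E u W)))
            ≤ exs s (65536 * p₀)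
              (fun W => (cK (j + 1) * 3 ^ t) * (p ^ (T u \ W).card * ind (¬ E u W))) := by
              apply exs_mono s hw0 hKp
              intro W _
              have h9 : h (T u \ W).card ≤ 3 ^ t * p ^ (T u \ W).card :=
                hπ.pow_le b _ t (Finset.card_le_card Finset.sdiff_subset)
              have h10 := ind_nonneg (¬ E u W)
              calc cK (j + 1) * (h (T u \ W).card * ind (¬ E u W))
                  ≤ cK (j + 1) * ((3 ^ t * p ^ (T u \ W).card) * ind (¬ E u W)) :=
                    mul_le_mul_of_nonneg_left (mul_le_mul_of_nonneg_right h9 h10) hA0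
                _ = (cK (j + 1) * 3 ^ t) * (p ^ (T u \ W).card * ind (¬ E u W)) := by ring
          _ = (cK (j + 1) * 3 ^ t) * exs s (65536 * p₀)
              (fun W => p ^ (T u \ W).card * ind (¬ E u W)) := exs_mul_left _ _ _ _
          _ ≤ (cK (j + 1) * 3 ^ t) * ((65536 * p₀ + (1 - 65536 * p₀) * p) ^ t
                * exs s (wM π M) (fun W => ind (¬ E u W))) := by
              apply mul_le_mul_of_nonneg_left _ (by positivity)
              exact exs_indep2 s (T u) u1 (65536 * p₀) (wM π M) p (wM_nonneg hπ M) hw21 hKp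
                hppos.le (E u) hEmono hEdep
          _ ≤ (cK (j + 1) * 3 ^ t) * ((262145 * p) ^ t * dM M) := by
              apply mul_le_mul_of_nonneg_left _ (by positivity)
              exact mul_le_mul h8 h7 h70 (by positivity)
          _ = cK (j + 1) * (786435 : ℝ) ^ t * dM M * p ^ t := by
              rw [mul_pow, show (786435 : ℝ) = 3 * 262145 by norm_num, mul_pow]; ring
          _ ≤ cK (j + 1) * (786435 : ℝ) ^ (2 * a) * dM M * p ^ t := by
              apply mul_le_mul_of_nonneg_right _ (by positivity)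
              apply mul_le_mul_of_nonneg_right _ hD0
              apply mul_le_mul_of_nonneg_left _ hA0
              exact pow_le_pow_right₀ (by norm_num) ht2
      calc ∑ u ∈ G, exs s (65536 * p₀)
            (fun W => cK (j + 1) * (h (T u \ W).card * ind (¬ E u W)))
          ≤ ∑ u ∈ G, cK (j + 1) * (786435 : ℝ) ^ (2 * a) * dM M * h (T u).card :=
            Finset.sum_le_sum hterm
        _ = cK (j + 1) * (786435 : ℝ) ^ (2 * a) * dM M * ∑ u ∈ G, h (T u).card := by
            rw [Finset.mul_sum]
        _ ≤ cK (j + 1) * (786435 : ℝ) ^ (2 * a) * dM M * 2 ^ (2 * (2 * a) + 1) := by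
            apply mul_le_mul_of_nonneg_left _ (by positivity)
            refine le_trans (le_of_eq ?_) hent
            rw [hGdef, Finset.sum_filter]
        _ = cK (j + 1) * (786435 : ℝ) ^ (2 * a) * 2 ^ (2 * (2 * a) + 1) * dM M := by ring
    rw [hw1]
    have hD16 : dM M ≤ (1 / 4 : ℝ) ^ (16 * (2 * a)) := by
      have := dM_le_of_lac (j + 1, b) M hL
      rwa [h2a] at this
    calc exs s (65536 * p₀)
          (fun W => ind (¬ GoodM s π (fun R => Q (R ∪ W)) (half ((j + 1, b) :: M)) F))
        ≤ exs s (65536 * p₀) (fun W => 4 ^ (2 * a) * (∑ i ∈ G with a ≤ (T (fr W i) \ W).card, ν i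
          + ∑ u ∈ G, cK (j + 1) * (h (T u \ W).card * ind (¬ E u W)))) :=
          exs_mono s hw0 hKp hdet
      _ = 4 ^ (2 * a) * (exs s (65536 * p₀)
            (fun W => ∑ i ∈ G with a ≤ (T (fr W i) \ W).card, ν i)
          + exs s (65536 * p₀)
            (fun W => ∑ u ∈ G, cK (j + 1) * (h (T u \ W).card * ind (¬ E u W)))) := by
          rw [exs_mul_left, exs_add]
      _ ≤ 4 ^ (2 * a) * (cK (j + 1) * 2 ^ (2 * a) * (1 / 65536 : ℝ) ^ a
          + cK (j + 1) * (786435 : ℝ) ^ (2 * a) * 2 ^ (2 * (2 * a) + 1) * dM M) := by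
          apply mul_le_mul_of_nonneg_left _ (by positivity)
          exact add_le_add hexp1 hexp2
      _ ≤ (1 / 4 : ℝ) ^ (2 * a) :=
          num2 a ha1 (cK (j + 1)) (dM M) hA2 hA0 (dM_nonneg M) hD16
      _ = dM ((j + 1, b) :: M) := by
          change _ = (1 / 4 : ℝ) ^ (2 ^ (j + 1))
          rw [h2a]

end Pool.Agent.TH879.MS
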