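import Pool.Agent.TH879.MS.Final

set_option autoImplicit false
set_option linter.unusedSectionVars false

/-!
# The multiscale theorem with an exponential tail
-/

namespace Pool.Agent.TH879.MS

open Finset
open scoped Classical
open Pool.Agent.TH965 Pool.Agent.TH965.Emb Pool.Agent.TH965.Copy Pool.Agent.TH965.Spread
open Pool.Agent.TH948.KK (ind ind_true ind_false ind_nonneg ind_le_one ind_mono ind_congr exs_sum
  exs_congr exs_indep pairHom image_pairHom)

variable {X : Type*} [DecidableEq X]

/-- **Iteration of the phases, with an exponential tail.** -/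
theorem iterT (s : Finset X) (π : ℕ → ℝ) (hπ : Reg π) (hlt : 65536 * π 0 < 1)
    (n₁ n₂ : ℕ) :
    ∀ (n : ℕ) (L : List (ℕ × ℕ)), LacM L → (∀ x ∈ L, x.1 ≤ n₁ ∧ x.2 ≤ n₂) →
    ∀ (Q : Finset X → Prop), (∀ R R', R ⊆ R' → Q R → Q R') → GoodM s π Q L ∅ →
    ∀ B d : ℝ, B ≤ n * (65536 * π (n₂ + 2 ^ n₁)) → B ≤ d → 0 ≤ d → d ≤ 1 →
    exs s d (fun W => ind (¬ Q W)) ≤ Real.exp ((Real.log 3 / (65536 * π 0)) * (2 * sM π 0 L - B)) := by
  have hlog3 : 0 < Real.log 3 := Real.log_pos (by norm_num)
  set lam : ℝ := Real.log 3 / (65536 * π 0) with hlam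
  have hπ0 := hπ.pos 0
  have hlam0 : 0 < lam := by positivity
  have hwmin : 0 < 65536 * π (n₂ + 2 ^ n₁) := by
    have := hπ.pos (n₂ + 2 ^ n₁)
    positivity
  intro n
  induction n with
  | zero =>
    intro L hL hb Q hQ hG B d hBn hBd hd0 hd1
    have h1 : exs s d (fun W => ind (¬ Q W)) ≤ exs s d (fun _ => 1) := by
      apply exs_mono s hd0 hd1
      intro W _
      exact ind_le_one _
    rw [exs_const] at h1
    refine h1.trans ?_
    rw [← Real.exp_zero]
    apply Real.exp_le_exp.mpr
    have h2 := sM_nonneg hπ L 0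
    rw [Nat.cast_zero, zero_mul] at hBn
    apply mul_nonneg hlam0.le
    linarith
  | succ n ih =>
    intro L hL hb Q hQ hG B d hBn hBd hd0 hd1
    cases hLc : L with
    | nil =>
      have hQ0 : Q ∅ := by rw [hLc] at hG; exact hG
      have h1 : exs s d (fun W => ind (¬ Q W)) ≤ exs s d (fun _ => 0) := by
        apply exs_mono s hd0 hd1
        intro W _
        rw [ind_false]
        rw [not_not]
        exact hQ ∅ W (Finset.empty_subset _) hQ0
      rw [exs_const] at h1
      exact h1.trans (Real.exp_pos _).le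
    | cons x M =>
      rw [← hLc]
      set w : ℝ := wM π L with hw
      have hstep := sM_step π L hL
      have hhalf0 := sM_nonneg hπ (half L) 0
      have hwS : w ≤ sM π 0 L := by rw [hstep]; linarith
      have hwle : w ≤ 65536 * π 0 := by
        rw [hw, hLc]
        unfold wM
        have := hπ.anti (Nat.zero_le (x.2 + 2 ^ (x.1 - 1)))
        linarith
      have hw1 : w < 1 := by linarith
      have hwmin' : 65536 * π (n₂ + 2 ^ n₁) ≤ w := by
        rw [hw, hLc]
        unfold wM
        have h2 := hb x (by rw [hLc]; simp)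
        have h3 : (2 : ℕ) ^ (x.1 - 1) ≤ 2 ^ n₁ := Nat.pow_le_pow_right (by norm_num) (by omega)
        have := hπ.anti (show x.2 + 2 ^ (x.1 - 1) ≤ n₂ + 2 ^ n₁ by omega)
        linarith
      have hw0 : 0 < w := lt_of_lt_of_le hwmin hwmin'
      by_cases hBw : B < w
      · have h1 : exs s d (fun W => ind (¬ Q W)) ≤ exs s d (fun _ => 1) := by
          apply exs_mono s hd0 hd1
          intro W _
          exact ind_le_one _
        rw [exs_const] at h1
        refine h1.trans ?_
        rw [← Real.exp_zero]
        apply Real.exp_le_exp.mpr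
        apply mul_nonneg hlam0.le
        linarith
      · push Not at hBw
        have h1w : 0 < 1 - w := by linarith
        set d' : ℝ := (d - w) / (1 - w) with hd'
        have hdw : 0 ≤ d - w := by linarith
        have hd'0 : 0 ≤ d' := div_nonneg hdw h1w.le
        have hd'1 : d' ≤ 1 := by rw [hd', div_le_one h1w]; linarith
        have hd'2 : d - w ≤ d' := by
          rw [hd', le_div_iff₀ h1w]
          nlinarith
        have hd : d = w + d' - w * d' := by
          rw [hd']; field_simp; ring
        have hunion : exs s d (fun W => ind (¬ Q W))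
            = exs s w (fun W₁ => exs s d' (fun W₂ => ind (¬ Q (W₁ ∪ W₂)))) := by
          conv_lhs => rw [hd]
          exact exs_union s w d' (fun W => ind (¬ Q W))
        rw [hunion]
        set E : ℝ := Real.exp (lam * (2 * sM π 0 L - B)) with hE
        set xx : ℝ := Real.exp (lam * w) with hxx
        have hE0 : 0 < E := Real.exp_pos _
        have hx0 : 0 < xx := Real.exp_pos _
        have hx1 : 1 ≤ xx := by
          rw [hxx, ← Real.exp_zero]
          exact Real.exp_le_exp.mpr (by positivity)
        have hx3 : xx ≤ 3 := by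
          have h5 : lam * w ≤ Real.log 3 := by
            rw [hlam, div_mul_eq_mul_div, div_le_iff₀ (by positivity)]
            exact mul_le_mul_of_nonneg_left hwle hlog3.le
          calc xx ≤ Real.exp (Real.log 3) := Real.exp_le_exp.mpr h5
            _ = 3 := Real.exp_log (by norm_num)
        have hBn' : B - w ≤ n * (65536 * π (n₂ + 2 ^ n₁)) := by
          push_cast at hBn
          linarith
        have hinner : ∀ W₁ : Finset X, W₁ ⊆ s →
            exs s d' (fun W₂ => ind (¬ Q (W₁ ∪ W₂)))
            ≤ E / xx + (E * xx - E / xx) * ind (¬ GoodM s π (fun R => Q (R ∪ W₁)) (half L) ∅) := by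
          intro W₁ _
          have hQ' : ∀ R R' : Finset X, R ⊆ R' → Q (R ∪ W₁) → Q (R' ∪ W₁) :=
            fun R R' h => hQ _ _ (Finset.union_subset_union_left h)
          have hcomm : exs s d' (fun W₂ => ind (¬ Q (W₁ ∪ W₂)))
              = exs s d' (fun W₂ => ind (¬ Q (W₂ ∪ W₁))) := by
            apply exs_congr
            intro W _
            rw [Finset.union_comm]
          rw [hcomm]
          by_cases hgood : GoodM s π (fun R => Q (R ∪ W₁)) (half L) ∅
          · rw [ind_false (not_not.mpr hgood), mul_zero, add_zero]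
            obtain ⟨L', hL', hb', hG', hs'⟩ := drop_zeroM L n₁ n₂ hL hb hgood
            have h6 := ih L' hL' hb' (fun R => Q (R ∪ W₁)) hQ' hG'
              (B - w) d' hBn' (by linarith) hd'0 hd'1
            refine h6.trans (le_of_eq ?_)
            rw [hs', hE, hxx, ← Real.exp_sub]
            congr 1
            rw [hstep]
            ring
          · rw [ind_true hgood, mul_one]
            have h6 := ih L hL hb (fun R => Q (R ∪ W₁)) hQ'
              (GoodM.mono L ∅ (fun R => hQ _ _ Finset.subset_union_left) hG)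
              (B - w) d' hBn' (by linarith) hd'0 hd'1
            refine h6.trans (le_of_eq ?_)
            have e1 : E / xx + (E * xx - E / xx) = E * xx := by ring
            rw [e1, hE, hxx, ← Real.exp_add]
            congr 1
            ring
        have hEE : 0 ≤ E * xx - E / xx := by
          have h7 : E / xx ≤ E := div_le_self hE0.le hx1
          nlinarith
        calc exs s w (fun W₁ => exs s d' (fun W₂ => ind (¬ Q (W₁ ∪ W₂))))
            ≤ exs s w (fun W₁ => E / xx + (E * xx - E / xx) *
                ind (¬ GoodM s π (fun R => Q (R ∪ W₁)) (half L) ∅)) :=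
              exs_mono s hw0.le hw1.le hinner
          _ = E / xx + (E * xx - E / xx) * exs s w (fun W₁ =>
                ind (¬ GoodM s π (fun R => Q (R ∪ W₁)) (half L) ∅)) := by
              rw [exs_add, exs_const, exs_mul_left]
          _ ≤ E / xx + (E * xx - E / xx) * (1 / 4) := by
              have h1 := (phaseM s π hπ L hL Q hQ ∅ hG).trans (dM_le_quarter L)
              have h2 := mul_le_mul_of_nonneg_left h1 hEE
              linarith
          _ ≤ E := by
              have h8 : E / xx + (E * xx - E / xx) * (1 / 4) = E * ((3 + xx * xx) / (4 * xx)) := by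
                field_simp; ring
              rw [h8]
              have h9 : (3 + xx * xx) / (4 * xx) ≤ 1 := by
                rw [div_le_one (by positivity)]
                nlinarith
              nlinarith



/-- **The multiscale theorem for an arbitrary group action, with an exponential tail.** If for every
`A ⊆ H` the orbit of `A` has at least `q(|A|) ^ (-|A|)` members, where `q` is nonincreasing and
`t * q(t)` is nondecreasing, then a random set of density `d` contains no translate of `H` with
probability at most `exp ((log 3 / (3145728 q(0))) * (18874368 * ∑ q(2^j) - d))`. -/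
theorem action_tail {G : Type} {X : Type*} [Group G] [Fintype G] [Fintype X] [DecidableEq X]
    (φ : G →* Equiv.Perm X) (s H : Finset X) (hH : H.Nonempty) (hs : ∀ g : G, H.image (φ g) ⊆ s)
    (q : ℕ → ℝ) (hq : ∀ t, 0 < q t) (hqa : Antitone q)
    (hdbl : ∀ u t : ℕ, 1 ≤ u → u ≤ t → (u : ℝ) * q u ≤ t * q t)
    (hN : ∀ A ⊆ H, 1 ≤ ((univ.image (fun g : G => A.image (φ g))).card : ℝ) * q A.card ^ A.card)
    (hsmall : 65536 * (48 * q 0) < 1)
    (d : ℝ) (hd0 : 0 ≤ d) (hd1 : d ≤ 1) :
    exs s d (fun W => ind (¬ ∃ g : G, H.image (φ g) ⊆ W))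
      ≤ Real.exp ((Real.log 3 / (65536 * (48 * q 0)))
        * (6 * 65536 * 48 * ∑ κ ∈ Finset.range (Nat.log 2 H.card + 1), q (2 ^ κ) - d)) := by
  set π : ℕ → ℝ := fun t => 48 * q t with hπdef
  have hπ : Reg π := by
    refine ⟨fun t => ?_, ?_, ?_, hsmall.le⟩
    · have := hq t
      simp only [hπdef]
      positivity
    · intro a b hab
      have := hqa hab
      simp only [hπdef]
      linarith
    · intro u t hu hut
      have := hdbl u t hu hut
      simp only [hπdef]
      nlinarith
  set N : ℕ := Nat.log 2 H.card + 1 with hNdef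
  have hHpos : 1 ≤ H.card := Finset.card_pos.mpr hH
  have hHN : H.card < 2 ^ N := Nat.lt_pow_succ_log_self (by norm_num) _
  have hdy : dy π N = 48 * ∑ κ ∈ Finset.range N, q (2 ^ κ) := by
    unfold dy
    rw [Finset.mul_sum]
  obtain ⟨L, hL, hLb, hG, hsum⟩ := chainM φ s H hs q hq hqa π (fun t => rfl) hN
    (fun W => ∃ g : G, H.image (φ g) ⊆ W) N hHN H.card H (Finset.Subset.refl H) le_rfl
    (Finset.nonempty_iff_ne_empty.mp hH) N (by omega)
    (by rw [hNdef, Nat.add_sub_cancel]; exact Nat.pow_log_le_self 2 (by omega)) hHN [] trivial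
    (by simp) (by simp)
    (by
      change (0 : ℝ) ≤ _
      have := hπ.pos (2 ^ (N - 1))
      rw [sub_self]
      positivity)
    (fun g => ⟨g, Finset.Subset.refl _⟩)
  have hwmin : 0 < 65536 * π (H.card + 2 ^ N) := by
    have := hπ.pos (H.card + 2 ^ N)
    positivity
  obtain ⟨n, hn⟩ := exists_nat_ge (d / (65536 * π (H.card + 2 ^ N)))
  rw [div_le_iff₀ hwmin] at hn
  have h1 := iterT s π hπ hsmall N H.card n L hL hLb
    (fun W => ∃ g : G, H.image (φ g) ⊆ W)
    (fun R R' hRR' ⟨g, hg⟩ => ⟨g, hg.trans hRR'⟩) hG d d hn le_rfl hd0 hd1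
  refine h1.trans (Real.exp_le_exp.mpr ?_)
  have hlog3 : 0 < Real.log 3 := Real.log_pos (by norm_num)
  have hπ0 : 0 < π 0 := hπ.pos 0
  apply mul_le_mul_of_nonneg_left _ (by positivity)
  rw [hdy] at hsum
  linarith

/-- **The multiscale form of the second Kahn-Kalai conjecture, with an exponential tail.** -/
theorem threshold_tail {n m : ℕ} (hmn : m ≤ n) (H : SimpleGraph (Fin m)) (hH : H ≠ ⊥)
    (p : ℝ) (hp0 : 0 ≤ p) (hp1 : p ≤ 1) :
    1 - gnp n p (fun G => H.IsContained G)
      ≤ Real.exp ((80000000 * ∑ κ ∈ Finset.range (Nat.log 2 H.edgeSet.ncard + 1), pEk n (2 ^ κ) H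
          - p) / (4000000 * pE n H)) := by
  set e : ℕ := H.edgeSet.ncard with he
  have hedge : 1 ≤ e := by
    rw [he, Nat.one_le_iff_ne_zero, Ne, Set.ncard_eq_zero]
    intro he
    exact hH (SimpleGraph.edgeSet_eq_empty.mp he)
  set q : ℕ → ℝ := fun k => pEk n k H with hq
  have hq0 : ∀ t, 0 ≤ q t := fun t => pEk_nonneg hmn t H
  have hqa : Antitone q := pEk_anti hmn H
  have hq01 : q 0 = q 1 := by
    simp only [hq]
    unfold pEk
    rw [adm_zero hmn]
  have hq1E : q 1 = pE n H := pEk_one hmn H
  have hEpos : 0 < pE n H := pE_pos hmn H hH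
  have hq1 : 0 < q 1 := by rw [hq1E]; exact hEpos
  set r : ℕ → ℝ := reg q with hr
  have hrpos : ∀ t, 0 < r t := reg_pos q hq0 (by rw [hq01]; exact hq1) hq1
  set N : ℕ := Nat.log 2 e + 1 with hN
  have hsum := reg_sum q hq0 hqa N (by omega)
  have hqs : q 1 ≤ ∑ κ ∈ Finset.range N, q (2 ^ κ) := by
    have := Finset.single_le_sum (f := fun κ => q (2 ^ κ)) (s := Finset.range N)
      (fun κ _ => hq0 _) (Finset.mem_range.mpr (show 0 < N by omega))
    simpa using this
  set B : Finset (Sym2 (Fin n)) := (eF H).image (Sym2.map (Fin.castLE hmn)) with hB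
  have hBcard : B.card = e := by
    rw [hB, Finset.card_image_of_injective _ (Sym2.map.injective (Fin.castLE_injective hmn)),
      eF_card]
  have hr0 : r 0 = pE n H := by rw [← hq1E]; exact hq01
  -- the complement
  have hlow : 1 - gnp n p (fun G => H.IsContained G)
      ≤ exs (eF (⊤ : SimpleGraph (Fin n))) p
        (fun W => ind (¬ ∃ σ : Equiv.Perm (Fin n), B.image (pairHom n σ) ⊆ W)) := by
    rw [gnp_eq_exs]
    have h1 : (1 : ℝ) = exs (eF (⊤ : SimpleGraph (Fin n))) p (fun _ => 1) := by
      rw [exs_const]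
    rw [sub_le_iff_le_add']
    conv_lhs => rw [h1]
    rw [← exs_add]
    apply exs_mono _ hp0 hp1
    intro W _
    by_cases hex : ∃ σ : Equiv.Perm (Fin n), B.image (pairHom n σ) ⊆ W
    · obtain ⟨σ, hσ⟩ := hex
      rw [image_pairHom] at hσ
      rw [if_pos (isContained_of_cop hmn H σ W hσ)]
      have := ind_nonneg (¬ ∃ σ : Equiv.Perm (Fin n), B.image (pairHom n σ) ⊆ W)
      linarith
    · rw [ind_true hex]
      split_ifs <;> norm_num
  set S : ℝ := ∑ κ ∈ Finset.range N, q (2 ^ κ) with hS
  by_cases hcase : 80000000 * S - p ≤ 0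
  · have hsmall : 65536 * (48 * r 0) < 1 := by
      rw [hr0, ← hq1E]
      linarith
    have hmain := action_tail (pairHom n) (eF (⊤ : SimpleGraph (Fin n))) B
      (Finset.card_pos.mp (by omega))
      (by
        intro σ x hx
        rw [image_pairHom] at hx
        have := cop_notDiag hmn H σ x hx
        rw [mem_eF, SimpleGraph.edgeSet_top]
        exact this)
      r hrpos (reg_anti q hq0 hqa) (fun u t _ hut => reg_dbl q u t hut)
      (by
        intro A hA
        have := orbit_countM hmn H (r A.card) (hrpos _).le A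
          (by
            intro H' hH'
            have h1 := (pEk_least hmn A.card H).1.2.2 H' hH'.ge
            refine h1.trans ?_
            apply mul_le_mul_of_nonneg_left _ (by positivity)
            exact pow_le_pow_left₀ (pEk_nonneg hmn _ H) (le_reg q A.card) _) hA
        refine this.trans (le_of_eq ?_)
        congr 3)
      hsmall p hp0 hp1
    refine hlow.trans (hmain.trans (Real.exp_le_exp.mpr ?_))
    rw [hBcard, hr0]
    have hlog3 : 1 ≤ Real.log 3 := by
      rw [Real.le_log_iff_exp_le (by norm_num)]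
      linarith [Real.exp_one_lt_d9]
    have h2 : 6 * 65536 * 48 * ∑ κ ∈ Finset.range (Nat.log 2 e + 1), r (2 ^ κ) - p
        ≤ 80000000 * S - p := by
      have h3 : (0 : ℝ) ≤ S := Finset.sum_nonneg (fun κ _ => hq0 _)
      linarith
    have hden : 0 < 65536 * (48 * pE n H) := by positivity
    calc Real.log 3 / (65536 * (48 * pE n H))
          * (6 * 65536 * 48 * ∑ κ ∈ Finset.range (Nat.log 2 e + 1), r (2 ^ κ) - p)
        ≤ Real.log 3 / (65536 * (48 * pE n H)) * (80000000 * S - p) :=
          mul_le_mul_of_nonneg_left h2 (by positivity)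
      _ ≤ 1 / (4000000 * pE n H) * (80000000 * S - p) := by
          apply mul_le_mul_of_nonpos_right _ hcase
          rw [div_le_div_iff₀ (by positivity) hden]
          nlinarith
      _ = (80000000 * S - p) / (4000000 * pE n H) := by ring
  · push Not at hcase
    have h1 : 1 - gnp n p (fun G => H.IsContained G) ≤ 1 := by
      refine hlow.trans ?_
      have h2 : exs (eF (⊤ : SimpleGraph (Fin n))) p
          (fun W => ind (¬ ∃ σ : Equiv.Perm (Fin n), B.image (pairHom n σ) ⊆ W))
          ≤ exs (eF (⊤ : SimpleGraph (Fin n))) p (fun _ => 1) :=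
        exs_mono _ hp0 hp1 (fun W _ => ind_le_one _)
      rw [exs_const] at h2
      exact h2
    refine h1.trans ?_
    rw [← Real.exp_zero]
    apply Real.exp_le_exp.mpr
    exact div_nonneg hcase.le (by positivity)

end Pool.Agent.TH879.MS
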