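import Pool.Agent.TH879.MS.Defs

set_option autoImplicit false
set_option linter.unusedSectionVars false
set_option linter.unusedVariables false

/-!
# Tools: fragmentation with a spread condition for large sets only, and independence

`fragM` is `frag` of `TH263.KK_Small` with the spread condition restricted to the sets it uses.
-/

namespace Pool.Agent.TH879.MS

open Finset
open Pool.Agent.TH965.Spread
open Pool.Agent.TH948.KK (ind ind_true ind_false ind_nonneg ind_le_one ind_mono ind_congr exs_sum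
  exs_congr exs_indep)

lemma fragM {ι X : Type*} [DecidableEq X] (s : Finset X) (G : Finset ι) (ν : ι → ℝ)
    (B : ι → Finset X) (fr : Finset X → ι → ι)
    (hfr : ∀ W : Finset X, ∀ i ∈ G, fr W i ∈ G ∧ B (fr W i) ⊆ W ∪ B i ∧
      ∀ j ∈ G, B j ⊆ W ∪ B i → (B (fr W i) \ W).card ≤ (B j \ W).card)
    (hB : ∀ i ∈ G, B i ⊆ s) (r t₀ : ℕ) (hr : ∀ i ∈ G, (B i).card ≤ r) (ht₀ : 1 ≤ t₀)
    (A K p : ℝ) (hA : 0 ≤ A) (hK : 1 ≤ K) (hp : 0 < p) (hKp : K * p ≤ 1) (hν : ∀ i, 0 ≤ ν i)
    (hsp : ∀ S : Finset X, t₀ ≤ S.card → ∑ i ∈ G with S ⊆ B i, ν i ≤ A * p ^ S.card) :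
    exs s (K * p) (fun W => ∑ i ∈ G with t₀ ≤ (B (fr W i) \ W).card, ν i)
      ≤ A * 2 ^ r * (1 / K) ^ t₀ := by
  classical
  have hK0 : 0 < K := by linarith
  set P : ℝ := K * p with hPdef
  have hP0 : 0 < P := by positivity
  -- a canonical member inside `Z`
  have hJ : ∀ Z : Finset X, ∃ C : Finset X, C.card ≤ r ∧
      ((∃ i ∈ G, B i ⊆ Z) → ∃ j ∈ G, B j = C ∧ B j ⊆ Z) := by
    intro Z
    by_cases h : ∃ i ∈ G, B i ⊆ Z
    · obtain ⟨i, hi, hiZ⟩ := h
      exact ⟨B i, hr i hi, fun _ => ⟨i, hi, rfl, hiZ⟩⟩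
    · exact ⟨∅, by simp, fun h' => absurd h' h⟩
  choose C hCr hC using hJ
  have hp1' : 0 ≤ 1 - P := by linarith
  -- the target index set
  set w : Finset X → ℝ := fun W => P ^ W.card * (1 - P) ^ (s.card - W.card) with hw
  have hw0 : ∀ W, 0 ≤ w W := fun W => by positivity
  -- left side as a sum over pairs
  have hL : exs s P (fun W => ∑ i ∈ G with t₀ ≤ (B (fr W i) \ W).card, ν i)
      = ∑ x ∈ (s.powerset ×ˢ G).filter (fun x => t₀ ≤ (B (fr x.1 x.2) \ x.1).card),
          w x.1 * ν x.2 := by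
    rw [Finset.sum_filter, Finset.sum_product]
    unfold exs
    apply Finset.sum_congr rfl
    intro W _
    simp only
    rw [Finset.sum_filter, Finset.mul_sum]
    refine Finset.sum_congr rfl fun i _ => ?_
    split_ifs <;> simp [hw]
  -- the map
  set R : Finset (Σ _ : Finset X, Σ _ : Finset X, ι) :=
    s.powerset.sigma (fun Z => ((C Z).powerset.filter (fun T => t₀ ≤ T.card ∧ T ⊆ Z)).sigma
      (fun T => G.filter (fun i => T ⊆ B i))) with hR
  set g : Finset X × ι → (Σ _ : Finset X, Σ _ : Finset X, ι) :=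
    fun x => ⟨x.1 ∪ (B (fr x.1 x.2) \ x.1), ⟨B (fr x.1 x.2) \ x.1, x.2⟩⟩ with hg
  have hgh : ∀ x : Finset X × ι, (g x).1 \ (g x).2.1 = x.1 := by
    intro x
    simp only [hg]
    ext y
    simp only [Finset.mem_sdiff, Finset.mem_union]
    tauto
  have hmap : ∀ x ∈ (s.powerset ×ˢ G).filter (fun x => t₀ ≤ (B (fr x.1 x.2) \ x.1).card),
      g x ∈ R := by
    rintro ⟨W, i⟩ hx
    rw [Finset.mem_filter, Finset.mem_product] at hx
    obtain ⟨⟨hW, hi⟩, ht⟩ := hx
    simp only at hW hi ht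
    rw [Finset.mem_powerset] at hW
    obtain ⟨h1, h2, h3⟩ := hfr W i hi
    have hTB : B (fr W i) \ W ⊆ B i := by
      intro y hy
      rw [Finset.mem_sdiff] at hy
      have := h2 hy.1
      rw [Finset.mem_union] at this
      exact this.resolve_left hy.2
    have hfrs : B (fr W i) ⊆ s := hB _ h1
    simp only [hR, hg, Finset.mem_sigma, Finset.mem_filter, Finset.mem_powerset]
    have hZ : ∃ j ∈ G, B j ⊆ W ∪ (B (fr W i) \ W) := ⟨fr W i, h1, by
      intro y hy
      by_cases hyW : y ∈ W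
      · exact Finset.mem_union_left _ hyW
      · exact Finset.mem_union_right _ (Finset.mem_sdiff.mpr ⟨hy, hyW⟩)⟩
    obtain ⟨j, hj, hjC, hjZ⟩ := hC (W ∪ (B (fr W i) \ W)) hZ
    have hjW : B j ⊆ W ∪ B i := hjZ.trans (Finset.union_subset_union_right hTB)
    have hmin := h3 j hj hjW
    have hsub : B j \ W ⊆ B (fr W i) \ W := by
      intro y hy
      rw [Finset.mem_sdiff] at hy
      have := hjZ hy.1
      rw [Finset.mem_union] at this
      exact this.resolve_left hy.2
    have heq : B j \ W = B (fr W i) \ W := Finset.eq_of_subset_of_card_le hsub hmin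
    refine ⟨Finset.union_subset hW (Finset.sdiff_subset.trans hfrs), ⟨?_, ht,
      Finset.subset_union_right⟩, hi, hTB⟩
    rw [← hjC, ← heq]
    exact Finset.sdiff_subset
  have hinj : Set.InjOn g ((s.powerset ×ˢ G).filter
      (fun x => t₀ ≤ (B (fr x.1 x.2) \ x.1).card) : Finset (Finset X × ι)) := by
    rintro ⟨W, i⟩ _ ⟨W', i'⟩ _ h
    have h1 : W = W' := by
      have := hgh (W, i)
      rw [h, hgh (W', i')] at this
      exact this.symm
    have h2 : i = i' := by
      have := congrArg (fun z => z.2.2) h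
      exact this
    rw [h1, h2]
  have hS1 : ∑ x ∈ (s.powerset ×ˢ G).filter (fun x => t₀ ≤ (B (fr x.1 x.2) \ x.1).card),
      w x.1 * ν x.2 ≤ ∑ y ∈ R, w (y.1 \ y.2.1) * ν y.2.2 := by
    have : ∑ x ∈ (s.powerset ×ˢ G).filter (fun x => t₀ ≤ (B (fr x.1 x.2) \ x.1).card),
        w x.1 * ν x.2
        = ∑ y ∈ ((s.powerset ×ˢ G).filter
            (fun x => t₀ ≤ (B (fr x.1 x.2) \ x.1).card)).image g, w (y.1 \ y.2.1) * ν y.2.2 := by
      rw [Finset.sum_image hinj]
      apply Finset.sum_congr rfl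
      intro x _
      rw [hgh x]
    rw [this]
    apply Finset.sum_le_sum_of_subset_of_nonneg
    · intro y hy
      rw [Finset.mem_image] at hy
      obtain ⟨x, hx, rfl⟩ := hy
      exact hmap x hx
    · intro y _ _
      exact mul_nonneg (hw0 _) (hν _)
  have hS2 : ∑ y ∈ R, w (y.1 \ y.2.1) * ν y.2.2
      ≤ ∑ Z ∈ s.powerset, w Z * (A * 2 ^ r * (1 / K) ^ t₀) := by
    rw [hR, Finset.sum_sigma]
    apply Finset.sum_le_sum
    intro Z hZ
    rw [Finset.mem_powerset] at hZ
    rw [Finset.sum_sigma]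
    have hterm : ∀ T ∈ (C Z).powerset.filter (fun T => t₀ ≤ T.card ∧ T ⊆ Z),
        ∑ i ∈ G.filter (fun i => T ⊆ B i), w (Z \ T) * ν i ≤ w Z * (A * (1 / K) ^ t₀) := by
      intro T hT
      rw [Finset.mem_filter] at hT
      obtain ⟨-, hT1, hT2⟩ := hT
      rw [← Finset.mul_sum]
      have hcard : (Z \ T).card = Z.card - T.card := Finset.card_sdiff_of_subset hT2
      have hTZ : T.card ≤ Z.card := Finset.card_le_card hT2
      have hZs : Z.card ≤ s.card := Finset.card_le_card hZ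
      have hw1 : w (Z \ T) * P ^ T.card ≤ w Z := by
        simp only [hw]
        rw [hcard]
        have e1 : P ^ Z.card = P ^ (Z.card - T.card) * P ^ T.card := by
          rw [← pow_add]; congr 1; omega
        have e2 : s.card - (Z.card - T.card) = (s.card - Z.card) + T.card := by omega
        rw [e1, e2, pow_add]
        have h3 : (1 - P) ^ T.card ≤ 1 := pow_le_one₀ hp1' (by linarith)
        have h4 : 0 ≤ P ^ (Z.card - T.card) * P ^ T.card * (1 - P) ^ (s.card - Z.card) := by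
          positivity
        nlinarith [mul_le_mul_of_nonneg_left h3 h4]
      have hq1 : p ^ T.card ≤ P ^ T.card * (1 / K) ^ t₀ := by
        calc p ^ T.card = (P * (1 / K)) ^ T.card := by
              rw [hPdef]; congr 1; field_simp
          _ = P ^ T.card * (1 / K) ^ T.card := mul_pow _ _ _
          _ ≤ P ^ T.card * (1 / K) ^ t₀ := by
              apply mul_le_mul_of_nonneg_left _ (by positivity)
              refine pow_le_pow_of_le_one (by positivity) ?_ hT1
              rw [div_le_one hK0]; exact hK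
      calc w (Z \ T) * ∑ i ∈ G with T ⊆ B i, ν i
          ≤ w (Z \ T) * (A * p ^ T.card) := mul_le_mul_of_nonneg_left (hsp T hT1) (hw0 _)
        _ ≤ w (Z \ T) * (A * (P ^ T.card * (1 / K) ^ t₀)) := by
            apply mul_le_mul_of_nonneg_left _ (hw0 _)
            exact mul_le_mul_of_nonneg_left hq1 hA
        _ = (w (Z \ T) * P ^ T.card) * (A * (1 / K) ^ t₀) := by ring
        _ ≤ w Z * (A * (1 / K) ^ t₀) := by
            apply mul_le_mul_of_nonneg_right hw1; positivity
    calc ∑ T ∈ (C Z).powerset.filter (fun T => t₀ ≤ T.card ∧ T ⊆ Z),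
          ∑ i ∈ G.filter (fun i => T ⊆ B i), w (Z \ T) * ν i
        ≤ ∑ T ∈ (C Z).powerset.filter (fun T => t₀ ≤ T.card ∧ T ⊆ Z),
            w Z * (A * (1 / K) ^ t₀) := Finset.sum_le_sum hterm
      _ = (((C Z).powerset.filter (fun T => t₀ ≤ T.card ∧ T ⊆ Z)).card : ℝ)
            * (w Z * (A * (1 / K) ^ t₀)) := by rw [Finset.sum_const, nsmul_eq_mul]
      _ ≤ 2 ^ r * (w Z * (A * (1 / K) ^ t₀)) := by
          apply mul_le_mul_of_nonneg_right
          · have h1 : ((C Z).powerset.filter (fun T => t₀ ≤ T.card ∧ T ⊆ Z)).card ≤ 2 ^ r := by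
              calc _ ≤ (C Z).powerset.card := Finset.card_filter_le _ _
                _ = 2 ^ (C Z).card := Finset.card_powerset _
                _ ≤ 2 ^ r := Nat.pow_le_pow_right (by norm_num) (hCr Z)
            exact_mod_cast h1
          · have := hw0 Z
            positivity
      _ = w Z * (A * 2 ^ r * (1 / K) ^ t₀) := by ring
  have hS3 : ∑ Z ∈ s.powerset, w Z * (A * 2 ^ r * (1 / K) ^ t₀)
      = A * 2 ^ r * (1 / K) ^ t₀ := exs_const s P _
  rw [hL]
  exact (hS1.trans hS2).trans hS3.le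



lemma exs_indep2 {X : Type*} [DecidableEq X] (s T : Finset X) (hT : T ⊆ s) (w₁ w₂ p : ℝ)
    (h2 : 0 ≤ w₂) (h21 : w₂ ≤ w₁) (h1 : w₁ ≤ 1) (hp0 : 0 ≤ p) (E : Finset X → Prop)
    (hE : ∀ W W', W ⊆ W' → E W → E W') (hdep : ∀ W, E W ↔ E (W \ T)) :
    exs s w₁ (fun W => p ^ (T \ W).card * ind (¬ E W))
      ≤ (w₁ + (1 - w₁) * p) ^ T.card * exs s w₂ (fun W => ind (¬ E W)) := by
  obtain ⟨v, hv0, hv1, hv⟩ : ∃ v : ℝ, 0 ≤ v ∧ v ≤ 1 ∧ w₁ = v + w₂ - v * w₂ := by
    by_cases h : w₂ = 1
    · refine ⟨0, le_rfl, zero_le_one, ?_⟩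
      rw [h] at h21 ⊢
      linarith
    · have h3 : w₂ < 1 := lt_of_le_of_ne (h21.trans h1) h
      have h4 : 0 < 1 - w₂ := by linarith
      refine ⟨(w₁ - w₂) / (1 - w₂), div_nonneg (by linarith) h4.le, ?_, ?_⟩
      · rw [div_le_one h4]; linarith
      · field_simp
        ring
  have e1 : exs s w₁ (fun W => p ^ (T \ W).card * ind (¬ E W))
      = exs s v (fun V => exs s w₂ (fun W => p ^ (T \ (V ∪ W)).card * ind (¬ E (V ∪ W)))) := by
    rw [hv]
    exact exs_union s v w₂ (fun W => p ^ (T \ W).card * ind (¬ E W))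
  have e2 : ∀ V : Finset X, V ⊆ s →
      exs s w₂ (fun W => p ^ (T \ (V ∪ W)).card * ind (¬ E (V ∪ W)))
      ≤ (w₂ + (1 - w₂) * p) ^ (T \ V).card * exs s w₂ (fun W => ind (¬ E W)) := by
    intro V _
    rw [← exs_indep w₂ p (T \ V) s (Finset.sdiff_subset.trans hT) (fun W => ind (¬ E W))]
    · apply exs_mono s h2 (h21.trans h1)
      intro W _
      have e : T \ (V ∪ W) = (T \ V) \ W := by
        ext y
        simp only [Finset.mem_sdiff, Finset.mem_union]
        tauto
      rw [e]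
      apply mul_le_mul_of_nonneg_left _ (by positivity)
      apply ind_mono
      intro h h'
      exact h (hE W (V ∪ W) Finset.subset_union_right h')
    · intro W
      apply ind_congr
      rw [not_iff_not, hdep W, hdep (W \ (T \ V))]
      have : (W \ (T \ V)) \ T = W \ T := by
        ext y
        simp only [Finset.mem_sdiff]
        tauto
      rw [this]
  have e3 : exs s v (fun V => (w₂ + (1 - w₂) * p) ^ (T \ V).card
        * exs s w₂ (fun W => ind (¬ E W)))
      = (w₁ + (1 - w₁) * p) ^ T.card * exs s w₂ (fun W => ind (¬ E W)) := by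
    rw [exs_indep v (w₂ + (1 - w₂) * p) T s hT
      (fun _ => exs s w₂ (fun W => ind (¬ E W))) (fun _ => rfl), exs_const]
    congr 2
    rw [hv]; ring
  rw [e1, ← e3]
  exact exs_mono s hv0 hv1 e2

/-- The restriction of a sum to the indices choosing a given one. -/
lemma choose_leM {X : Type*} [DecidableEq X] {ι : Type} [Fintype ι] [DecidableEq ι] (h : ℕ → ℝ)
    (hz : h 0 = 1) (A : ℝ) (hA : 1 ≤ A)
    (W : Finset X) (ν : ι → ℝ) (T : ι → Finset X) (h0 : ∀ i, 0 ≤ ν i) (h1 : ∑ i, ν i = 1)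
    (hsp : ∀ S : Finset X, S.Nonempty → ∑ i with S ⊆ T i, ν i ≤ A * h S.card)
    (G : Finset ι) (v : ι → ι) (hv : ∀ i ∈ G, T (v i) ⊆ W ∪ T i) (u : ι) :
    ∑ i ∈ G with v i = u, ν i ≤ A * h (T u \ W).card := by
  by_cases hne : (T u \ W).Nonempty
  · refine le_trans ?_ (hsp _ hne)
    apply Finset.sum_le_sum_of_subset_of_nonneg
    · intro i hi
      rw [Finset.mem_filter] at hi ⊢
      refine ⟨Finset.mem_univ _, ?_⟩
      intro x hx
      rw [Finset.mem_sdiff, ← hi.2] at hx
      have := hv i hi.1 hx.1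
      rw [Finset.mem_union] at this
      exact this.resolve_left hx.2
    · intro i _ _
      exact h0 i
  · rw [Finset.not_nonempty_iff_eq_empty] at hne
    rw [hne, Finset.card_empty, hz, mul_one]
    calc ∑ i ∈ G with v i = u, ν i ≤ ∑ i, ν i :=
          Finset.sum_le_sum_of_subset_of_nonneg (Finset.subset_univ _) (fun i _ _ => h0 i)
      _ = 1 := h1
      _ ≤ A := hA

end Pool.Agent.TH879.MS
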